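import Mathlib

/-!
# The parameters of the construction
-/

set_option autoImplicit false
open Filter Topology

namespace Pool.Agent.K7.H82.PB

/-- truncated weighted sums -/
noncomputable def Psi (p : ℝ) (W : ℕ → ℝ) (m : ℕ) (c : ℕ → ℝ) : ℝ :=
  ∑ n ∈ Finset.range m, W n * |c n| ^ p

/-- the parameters -/
structure Dat (p : ℝ) where
  M : ℕ → ℕ
  W : ℕ → ℝ
  R : ℕ → ℝ
  xi : ℕ → (ℕ →₀ ℝ)
  M0 : M 0 = 0
  Mstep : ∀ k, M k + 3 ≤ M (k + 1)
  Rpos : ∀ k, 0 < R k
  Wdef : ∀ k n, M k ≤ n → n < M (k + 1) → W n = R k / ((M (k + 1) : ℝ) - M k)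
  small : ∀ k, (M k : ℝ) * R k * ((M (k + 1) : ℝ) - M k) ^ (p - 1) ≤ 1 / ((k : ℝ) + 1)
  big0 : ∀ k, Psi p W (M k) (xi k) ≤ (1 / 4) ^ k * R k
  big : ∀ j k, j < k → R j * Psi p W (M k) (xi k) ≤ (1 / 4) ^ k * R k
  supp : ∀ k n, M k ≤ n → xi k n = 0
  dens : ∀ (c : ℕ →₀ ℚ) (K : ℕ), ∃ k ≥ K, ∀ n, xi k n = ((c n : ℚ) : ℝ)

/-- states of the recursion -/
structure St where
  M : ℕ
  W : ℕ → ℝ
  R : ℝ
  rho : ℝ
  hrho : 1 ≤ rho

/-- the relation between consecutive states -/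
structure Step (p : ℝ) (q : ℕ → (ℕ → ℝ)) (k : ℕ) (s s' : St) : Prop where
  M : s.M + 3 ≤ s'.M
  Rpos : 0 < s'.R
  W0 : ∀ n < s.M, s'.W n = s.W n
  W1 : ∀ n, s.M ≤ n → n < s'.M → s'.W n = s'.R / ((s'.M : ℝ) - s.M)
  small : (s.M : ℝ) * s'.R * ((s'.M : ℝ) - s.M) ^ (p - 1) ≤ 1 / ((k : ℝ) + 1)
  big : ∀ r : ℝ, 0 ≤ r → r ≤ s.rho → r * Psi p s.W s.M (q k) ≤ (1 / 4) ^ k * s'.R
  rho : s.rho ≤ s'.rho
  rhoR : s'.R ≤ s'.rho

lemma exists_step {p : ℝ} (hp : p < 1) (q : ℕ → (ℕ → ℝ)) (k : ℕ) (s : St) :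
    ∃ s', Step p q k s s' := by
  have hs := s.hrho
  set P := Psi p s.W s.M (q k) with hP
  set R : ℝ := 4 ^ k * (s.rho * (|P| + 1)) with hR
  have hP0 : 0 ≤ |P| := abs_nonneg _
  have hRpos : 0 < R := by positivity
  have hlim : Tendsto (fun N : ℕ => (s.M : ℝ) * R * (N : ℝ) ^ (p - 1)) atTop (𝓝 0) := by
    have h1 : Tendsto (fun x : ℝ => x ^ (-(1 - p))) atTop (𝓝 0) :=
      tendsto_rpow_neg_atTop (by linarith)
    have h2 := (h1.comp tendsto_natCast_atTop_atTop).const_mul ((s.M : ℝ) * R)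
    rw [mul_zero] at h2
    refine h2.congr fun N => ?_
    simp only [Function.comp]
    congr 2
    ring
  have hk : (0 : ℝ) < 1 / ((k : ℝ) + 1) := by positivity
  obtain ⟨N, hN, hN3⟩ := ((hlim.eventually (gt_mem_nhds hk)).and (eventually_ge_atTop 3)).exists
  refine ⟨⟨s.M + N, fun n => if n < s.M then s.W n else R / N, R, max s.rho R,
    hs.trans (le_max_left _ _)⟩, ?_, hRpos, ?_, ?_, ?_, ?_, le_max_left _ _, le_max_right _ _⟩
  · show s.M + 3 ≤ s.M + N
    omega
  · intro n hn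
    simp [hn]
  · intro n hn _
    simp [not_lt.2 hn]
  · simp only [Nat.cast_add, add_sub_cancel_left]
    exact hN.le
  · intro r hr hr'
    have h1 : (1 / 4 : ℝ) ^ k * R = s.rho * (|P| + 1) := by
      rw [hR, ← mul_assoc, ← mul_pow]
      norm_num
    show r * P ≤ (1 / 4 : ℝ) ^ k * R
    rw [h1]
    calc r * P ≤ r * |P| := mul_le_mul_of_nonneg_left (le_abs_self _) hr
      _ ≤ s.rho * |P| := mul_le_mul_of_nonneg_right hr' hP0
      _ ≤ s.rho * (|P| + 1) := by nlinarith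

lemma psi_congr {p : ℝ} {W W' : ℕ → ℝ} {m : ℕ} {c c' : ℕ → ℝ} (h : ∀ n < m, W n = W' n)
    (h' : ∀ n < m, c n = c' n) : Psi p W m c = Psi p W' m c' := by
  refine Finset.sum_congr rfl fun n hn => ?_
  rw [h n (Finset.mem_range.1 hn), h' n (Finset.mem_range.1 hn)]

theorem exists_dat {p : ℝ} (hp : p < 1) : Nonempty (Dat p) := by
  obtain ⟨e, he⟩ := exists_surjective_nat (ℕ →₀ ℚ)
  -- the rational vectors
  let q : ℕ → (ℕ →₀ ℝ) := fun k =>
    (e k.unpair.1).mapRange (fun x : ℚ => (x : ℝ)) (by simp)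
  choose nxt hnxt using fun (k : ℕ) (s : St) => exists_step hp (fun k => q k) k s
  let S : ℕ → St := fun k => Nat.rec ⟨0, fun _ => 0, 0, 1, le_rfl⟩ (fun k s => nxt k s) k
  have hS : ∀ k, Step p (fun k => q k) k (S k) (S (k + 1)) := fun k => hnxt k (S k)
  have hM0 : (S 0).M = 0 := rfl
  have hMstep : ∀ k, (S k).M + 3 ≤ (S (k + 1)).M := fun k => (hS k).M
  have hMmono : Monotone fun k => (S k).M :=
    monotone_nat_of_le_succ fun k => by have := hMstep k; omega
  have hMge : ∀ k, k ≤ (S k).M := by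
    intro k
    induction k with
    | zero => exact Nat.zero_le _
    | succ k ih => have := hMstep k; omega
  have hWstab : ∀ k j, k ≤ j → ∀ n < (S k).M, (S j).W n = (S k).W n := by
    intro k j hkj
    induction j, hkj using Nat.le_induction with
    | base => intro n _; rfl
    | succ j hkj ih =>
      intro n hn
      rw [(hS j).W0 n (lt_of_lt_of_le hn (hMmono hkj)), ih n hn]
  have hWeq : ∀ k, ∀ n < (S k).M, (S (n + 1)).W n = (S k).W n := by
    intro k n hn
    rcases le_total k (n + 1) with h | h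
    · exact hWstab k (n + 1) h n hn
    · exact (hWstab (n + 1) k h n (lt_of_lt_of_le (Nat.lt_succ_self n) (hMge _))).symm
  have hrho : ∀ k j, k ≤ j → (S k).rho ≤ (S j).rho := by
    intro k j hkj
    induction j, hkj using Nat.le_induction with
    | base => exact le_rfl
    | succ j hkj ih => exact ih.trans (hS j).rho
  have hxi : ∀ k, Psi p (fun n => (S (n + 1)).W n) (S k).M
      (Finsupp.filter (fun n => n < (S k).M) (q k)) = Psi p (S k).W (S k).M (q k) := by
    intro k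
    refine psi_congr (fun n hn => hWeq k n hn) fun n hn => ?_
    exact Finsupp.filter_apply_pos _ _ hn
  refine ⟨⟨fun k => (S k).M, fun n => (S (n + 1)).W n, fun k => (S (k + 1)).R,
    fun k => (q k).filter (fun n => n < (S k).M), hM0, hMstep, fun k => (hS k).Rpos, ?_,
    fun k => (hS k).small, ?_, ?_, ?_, ?_⟩⟩
  · intro k n h1 h2
    rw [hWeq (k + 1) n h2]
    exact (hS k).W1 n h1 h2
  · intro k
    rw [hxi k]
    have := (hS k).big 1 zero_le_one (S k).hrho
    rwa [one_mul] at this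
  · intro j k hjk
    rw [hxi k]
    exact (hS k).big _ (hS j).Rpos.le ((hS j).rhoR.trans (hrho (j + 1) k hjk))
  · intro k n hn
    exact Finsupp.filter_apply_neg _ _ (not_lt.2 hn)
  · intro c K
    obtain ⟨a, rfl⟩ := he c
    obtain ⟨B, hB⟩ : ∃ B, ∀ n ∈ (e a).support, n < B :=
      ⟨(e a).support.sup id + 1, fun n hn => Nat.lt_succ_of_le (Finset.le_sup (f := id) hn)⟩
    refine ⟨Nat.pair a (max K B), (le_max_left _ _).trans (Nat.right_le_pair _ _), fun n => ?_⟩
    have hq : ∀ n, q (Nat.pair a (max K B)) n = ((e a n : ℚ) : ℝ) := by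
      intro n
      simp [q]
    by_cases hn : n < (S (Nat.pair a (max K B))).M
    · exact (Finsupp.filter_apply_pos (fun n => n < (S (Nat.pair a (max K B))).M) _ hn).trans
        (hq n)
    · refine (Finsupp.filter_apply_neg (fun n => n < (S (Nat.pair a (max K B))).M) _ hn).trans ?_
      have h1 : B ≤ n := by
        have h2 := hMge (Nat.pair a (max K B))
        have h3 := Nat.right_le_pair a (max K B)
        have h4 := le_max_right K B
        omega
      have h5 : n ∉ (e a).support := fun h => absurd (hB n h) (not_lt.2 h1)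
      rw [Finsupp.notMem_support_iff.1 h5]
      simp

end Pool.Agent.K7.H82.PB
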