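import Mathlib

/-!
# `p`-Banach spaces, `ℓ_p`-sums and Lipschitz free `p`-spaces

The group norm `‖v‖` is the `p`-th power of the `p`-norm of `v`.
-/

set_option autoImplicit false
open UniformSpace

namespace Pool.Agent.K7.H82.PB

/-- A real vector space with a group (semi)norm which is the `p`-th power of a `p`-(semi)norm:
`‖t v‖ = |t| ^ p ‖v‖`. -/
class PNormed (p : ℝ) (V : Type*) [SeminormedAddCommGroup V] [Module ℝ V] : Prop where
  norm_smul_p : ∀ (t : ℝ) (v : V), ‖t • v‖ = |t| ^ p * ‖v‖

section ell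

variable (p : ℝ) (Y : Type*) [NormedAddCommGroup Y] [Module ℝ Y] [PNormed p Y]

/-- The sequences `y` in `Y` such that the `p`-th powers of the `p`-norms are summable. -/
def ellSub : Submodule ℝ (ℕ → Y) where
  carrier := {y | Summable fun n => ‖y n‖}
  add_mem' := by
    intro a b ha hb
    exact Summable.of_nonneg_of_le (fun n => norm_nonneg _) (fun n => norm_add_le _ _)
      (Summable.add ha hb)
  zero_mem' := by simp [summable_zero]
  smul_mem' := by
    intro t y hy
    have : (fun n => ‖(t • y) n‖) = fun n => |t| ^ p * ‖y n‖ := by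
      funext n
      exact PNormed.norm_smul_p t (y n)
    show Summable fun n => ‖(t • y) n‖
    rw [this]
    exact Summable.mul_left _ hy

/-- The space `ℓ_p(Y)`. -/
def EllP : Type _ := ellSub p Y

instance : AddCommGroup (EllP p Y) := inferInstanceAs (AddCommGroup (ellSub p Y))
instance : Module ℝ (EllP p Y) := inferInstanceAs (Module ℝ (ellSub p Y))

variable {p Y}

/-- the coordinates of an element of `ℓ_p(Y)` -/
def EllP.co (y : EllP p Y) (n : ℕ) : Y := y.1 n

lemma EllP.co_add (y z : EllP p Y) (n : ℕ) : (y + z).co n = y.co n + z.co n := rfl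
lemma EllP.co_neg (y : EllP p Y) (n : ℕ) : (-y).co n = -y.co n := rfl
lemma EllP.co_zero (n : ℕ) : (0 : EllP p Y).co n = 0 := rfl
lemma EllP.co_smul (t : ℝ) (y : EllP p Y) (n : ℕ) : (t • y).co n = t • y.co n := rfl
lemma EllP.summable (y : EllP p Y) : Summable fun n => ‖y.co n‖ := y.2
lemma EllP.ext {y z : EllP p Y} (h : ∀ n, y.co n = z.co n) : y = z :=
  Subtype.ext (funext h)

variable (p Y) in
/-- The `p`-th power of the `p`-norm of `ℓ_p(Y)` is the sum of the `p`-th powers. -/
noncomputable instance : NormedAddCommGroup (EllP p Y) :=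
  AddGroupNorm.toNormedAddCommGroup
    { toFun := fun y => ∑' n, ‖y.co n‖
      map_zero' := by simp [EllP.co_zero]
      add_le' := by
        intro y z
        rw [← Summable.tsum_add y.summable z.summable]
        exact Summable.tsum_le_tsum (fun n => norm_add_le _ _) (y + z).summable
          (Summable.add y.summable z.summable)
      neg' := by intro y; simp [EllP.co_neg]
      eq_zero_of_map_eq_zero' := by
        intro y hy
        apply EllP.ext
        intro n
        have h := (hasSum_zero_iff_of_nonneg (fun n => norm_nonneg (y.co n))).1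
          (hy ▸ y.summable.hasSum)
        exact norm_eq_zero.1 (congrFun h n) }

lemma EllP.norm_def (y : EllP p Y) : ‖y‖ = ∑' n, ‖y.co n‖ := rfl

instance : PNormed p (EllP p Y) where
  norm_smul_p := by
    intro t y
    simp only [EllP.norm_def, EllP.co_smul, PNormed.norm_smul_p (p := p)]
    exact tsum_mul_left

lemma EllP.norm_co_le (y : EllP p Y) (n : ℕ) : ‖y.co n‖ ≤ ‖y‖ :=
  y.summable.le_tsum n (fun _ _ => norm_nonneg _)

end ell

section free

/-- The real vector space with the basis of all formal symbols `δ(x)`, `x ≠ 0`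
(the exponent `p` is recorded for the sake of the norm). -/
def FreePre (_p : ℝ) (X : Type*) [NormedAddCommGroup X] : Type _ := {x : X // x ≠ 0} →₀ ℝ

variable (p : ℝ) (X : Type*) [NormedAddCommGroup X]

noncomputable instance : AddCommGroup (FreePre p X) :=
  inferInstanceAs (AddCommGroup ({x : X // x ≠ 0} →₀ ℝ))
noncomputable instance : Module ℝ (FreePre p X) :=
  inferInstanceAs (Module ℝ ({x : X // x ≠ 0} →₀ ℝ))

variable {X}

open Classical in
/-- The symbol `δ(x)`, with `δ(0) = 0`. -/
noncomputable def dl (x : X) : FreePre p X :=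
  (if h : x = 0 then 0 else Finsupp.single ⟨x, h⟩ 1 : {x : X // x ≠ 0} →₀ ℝ)

variable {p}

/-- The sums `∑ |a_i| ^ p * |x_i - y_i| ^ p` for the representations
`μ = ∑ a_i (δ(x_i) - δ(y_i))`. -/
def costs (μ : FreePre p X) : Set ℝ :=
  {r | ∃ (n : ℕ) (a : Fin n → ℝ) (x y : Fin n → X),
    μ = ∑ i, a i • (dl p (x i) - dl p (y i)) ∧ r = ∑ i, |a i| ^ p * ‖x i - y i‖}

lemma costs_nonneg {μ : FreePre p X} {r : ℝ} (h : r ∈ costs μ) : 0 ≤ r := by
  obtain ⟨n, a, x, y, -, rfl⟩ := h
  exact Finset.sum_nonneg fun i _ => mul_nonneg (Real.rpow_nonneg (abs_nonneg _) _) (norm_nonneg _)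

lemma costs_bdd (μ : FreePre p X) : BddBelow (costs μ) := ⟨0, fun _ h => costs_nonneg h⟩

lemma zero_costs : (0 : ℝ) ∈ costs (0 : FreePre p X) :=
  ⟨0, fun _ => 0, fun _ => 0, fun _ => 0, by simp, by simp⟩

lemma costs_add {μ ν : FreePre p X} {r s : ℝ} (h : r ∈ costs μ) (h' : s ∈ costs ν) :
    r + s ∈ costs (μ + ν) := by
  obtain ⟨n, a, x, y, hμ, hr⟩ := h
  obtain ⟨m, b, z, w, hν, hs⟩ := h'
  refine ⟨n + m, Fin.append a b, Fin.append x z, Fin.append y w, ?_, ?_⟩
  · rw [Fin.sum_univ_add]
    simp only [Fin.append_left, Fin.append_right]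
    rw [hμ, hν]
  · rw [Fin.sum_univ_add]
    simp only [Fin.append_left, Fin.append_right]
    rw [hr, hs]

lemma costs_smul {μ : FreePre p X} {r : ℝ} (t : ℝ) (h : r ∈ costs μ) :
    |t| ^ p * r ∈ costs (t • μ) := by
  obtain ⟨n, a, x, y, hμ, hr⟩ := h
  refine ⟨n, fun i => t * a i, x, y, ?_, ?_⟩
  · rw [hμ, Finset.smul_sum]
    exact Finset.sum_congr rfl fun i _ => by rw [smul_smul]
  · rw [hr, Finset.mul_sum]
    refine Finset.sum_congr rfl fun i _ => ?_
    rw [abs_mul, Real.mul_rpow (abs_nonneg _) (abs_nonneg _), mul_assoc]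

lemma dl_zero : dl p (0 : X) = 0 := dif_pos rfl

lemma dl_ne {x : X} (h : x ≠ 0) :
    dl p x = (Finsupp.single (⟨x, h⟩ : {x : X // x ≠ 0}) (1 : ℝ) :) := dif_neg h

lemma costs_nonempty (μ : FreePre p X) : (costs μ).Nonempty := by
  refine Finsupp.induction_linear (motive := fun μ => (costs (p := p) (X := X) μ).Nonempty) μ
    ⟨0, zero_costs⟩ ?_ ?_
  · rintro f g ⟨r, hr⟩ ⟨s, hs⟩
    exact ⟨r + s, costs_add hr hs⟩
  · rintro ⟨x, hx⟩ t
    refine ⟨|t| ^ p * ‖x - 0‖, 1, fun _ => t, fun _ => x, fun _ => 0, ?_, by simp⟩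
    simp only [Finset.univ_unique, Finset.sum_const, Finset.card_singleton, one_smul]
    rw [dl_zero, sub_zero, dl_ne hx]
    exact ((Finsupp.smul_single t _ _).trans (by simp)).symm

lemma sInf_zero : sInf (costs (0 : FreePre p X)) = 0 :=
  le_antisymm (csInf_le (costs_bdd _) zero_costs)
    (le_csInf (costs_nonempty _) fun _ h => costs_nonneg h)

lemma sInf_add (μ ν : FreePre p X) :
    sInf (costs (μ + ν)) ≤ sInf (costs μ) + sInf (costs ν) := by
  refine le_of_forall_pos_le_add fun ε hε => ?_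
  obtain ⟨r, hr, hr'⟩ := exists_lt_of_csInf_lt (costs_nonempty μ)
    (lt_add_of_pos_right (sInf (costs μ)) (half_pos hε))
  obtain ⟨s, hs, hs'⟩ := exists_lt_of_csInf_lt (costs_nonempty ν)
    (lt_add_of_pos_right (sInf (costs ν)) (half_pos hε))
  have := csInf_le (costs_bdd _) (costs_add hr hs)
  linarith

lemma sInf_smul_le (t : ℝ) (μ : FreePre p X) :
    sInf (costs (t • μ)) ≤ |t| ^ p * sInf (costs μ) := by
  refine le_of_forall_pos_le_add fun ε hε => ?_
  have hc : 0 ≤ |t| ^ p := Real.rpow_nonneg (abs_nonneg _) _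
  obtain ⟨r, hr, hr'⟩ := exists_lt_of_csInf_lt (costs_nonempty μ)
    (lt_add_of_pos_right (sInf (costs μ)) (div_pos hε (by linarith : 0 < |t| ^ p + 1)))
  have h1 := csInf_le (costs_bdd _) (costs_smul t hr)
  have h2 : |t| ^ p * r ≤ |t| ^ p * (sInf (costs μ) + ε / (|t| ^ p + 1)) :=
    mul_le_mul_of_nonneg_left hr'.le hc
  have h3 : |t| ^ p * (ε / (|t| ^ p + 1)) ≤ ε := by
    rw [← mul_div_assoc, div_le_iff₀ (by linarith)]
    nlinarith
  linarith [mul_add (|t| ^ p) (sInf (costs μ)) (ε / (|t| ^ p + 1))]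

lemma sInf_neg (μ : FreePre p X) : sInf (costs (-μ)) = sInf (costs μ) := by
  have h : ∀ μ : FreePre p X, sInf (costs (-μ)) ≤ sInf (costs μ) := by
    intro μ
    have := sInf_smul_le (-1) μ
    simpa using this
  refine le_antisymm (h μ) ?_
  simpa using h (-μ)

variable (p X) in
/-- The `p`-th power of the `p`-norm of the free `p`-space, on the span of the `δ(x)`. -/
noncomputable instance : SeminormedAddCommGroup (FreePre p X) :=
  AddGroupSeminorm.toSeminormedAddCommGroup
    { toFun := fun μ => sInf (costs μ)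
      map_zero' := sInf_zero
      add_le' := sInf_add
      neg' := sInf_neg }

lemma norm_pre (μ : FreePre p X) : ‖μ‖ = sInf (costs μ) := rfl

lemma norm_smul_pre_le (t : ℝ) (μ : FreePre p X) : ‖t • μ‖ ≤ |t| ^ p * ‖μ‖ := sInf_smul_le t μ

instance : UniformContinuousConstSMul ℝ (FreePre p X) where
  uniformContinuous_const_smul := by
    intro t
    have hc : 0 ≤ |t| ^ p := Real.rpow_nonneg (abs_nonneg _) _
    refine LipschitzWith.uniformContinuous (K := ⟨|t| ^ p, hc⟩) ?_
    refine LipschitzWith.of_dist_le_mul fun μ ν => ?_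
    rw [dist_eq_norm, dist_eq_norm, ← smul_sub]
    exact norm_smul_pre_le t _

instance [hp : Fact (0 < p)] : PNormed p (FreePre p X) where
  norm_smul_p := by
    intro t μ
    rcases eq_or_ne t 0 with rfl | ht
    · simp [Real.zero_rpow hp.out.ne']
    refine le_antisymm (norm_smul_pre_le t μ) ?_
    have h := norm_smul_pre_le t⁻¹ (t • μ)
    rw [smul_smul, inv_mul_cancel₀ ht, one_smul, abs_inv, Real.inv_rpow (abs_nonneg _)] at h
    have hc : 0 < |t| ^ p := Real.rpow_pos_of_pos (abs_pos.2 ht) _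
    calc |t| ^ p * ‖μ‖ ≤ |t| ^ p * ((|t| ^ p)⁻¹ * ‖t • μ‖) :=
          mul_le_mul_of_nonneg_left h hc.le
      _ = ‖t • μ‖ := by rw [← mul_assoc, mul_inv_cancel₀ hc.ne', one_mul]

/-- The completion of a `p`-normed space is `p`-normed. -/
lemma pnormed_completion {V : Type*} [SeminormedAddCommGroup V] [Module ℝ V]
    [UniformContinuousConstSMul ℝ V] [PNormed p V] : PNormed p (Completion V) where
  norm_smul_p := by
    intro t v
    refine Completion.induction_on v ?_ ?_
    · exact isClosed_eq (continuous_norm.comp (continuous_const_smul t))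
        (continuous_const.mul continuous_norm)
    · intro a
      rw [← Completion.coe_smul, Completion.norm_coe, Completion.norm_coe, PNormed.norm_smul_p (p := p)]

variable (p X) in
/-- The Lipschitz free `p`-space `F_p(X)`. -/
abbrev FreeP : Type _ := Completion (FreePre p X)

instance [Fact (0 < p)] : PNormed p (FreeP p X) := pnormed_completion

end free

end Pool.Agent.K7.H82.PB
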