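import Pool.Agent.K7.H82.PB.Rigid

/-!
# The free `p`-space of a rigid space
-/

set_option autoImplicit false
open Filter Topology UniformSpace

namespace Pool.Agent.K7.H82.PB

variable {p : ℝ}

lemma bound_of_continuous [Fact (0 < p)] {V W : Type*} [NormedAddCommGroup V] [Module ℝ V]
    [PNormed p V] [NormedAddCommGroup W] [Module ℝ W] [PNormed p W] (S : V →L[ℝ] W) :
    ∃ C : ℝ, ∀ v, ‖S v‖ ≤ C * ‖v‖ := by
  have hp0 : 0 < p := Fact.out
  have h1 : Tendsto (fun v => ‖S v‖) (𝓝 0) (𝓝 0) := by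
    have := (S.continuous.norm).tendsto 0
    simpa using this
  obtain ⟨δ, hδ, hδ'⟩ := Metric.eventually_nhds_iff.1 (h1.eventually (gt_mem_nhds one_pos))
  refine ⟨2 / δ, fun v => ?_⟩
  rcases eq_or_ne v 0 with rfl | hv
  · simp
  have hvn : 0 < ‖v‖ := norm_pos_iff.2 hv
  set t : ℝ := (δ / 2 / ‖v‖) ^ (1 / p) with ht
  have ht0 : 0 < t := by positivity
  have htp : |t| ^ p = δ / 2 / ‖v‖ := by
    rw [abs_of_pos ht0, ht, ← Real.rpow_mul (by positivity), one_div_mul_cancel hp0.ne',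
      Real.rpow_one]
  have h2 : ‖t • v‖ = δ / 2 := by
    rw [PNormed.norm_smul_p (p := p), htp]
    field_simp
  have h3 : ‖S (t • v)‖ < 1 := by
    apply hδ'
    rw [dist_zero_right, h2]
    linarith
  rw [map_smul, PNormed.norm_smul_p (p := p), htp] at h3
  have h4 : ‖S v‖ = (2 / δ * ‖v‖) * (δ / 2 / ‖v‖ * ‖S v‖) := by field_simp
  rw [h4]
  have h5 : 0 < 2 / δ * ‖v‖ := by positivity
  nlinarith

section free

variable {X : Type*} [NormedAddCommGroup X]

lemma norm_dl_sub (x y : X) : ‖dl p x - dl p y‖ ≤ ‖x - y‖ := by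
  refine csInf_le (costs_bdd _) ⟨1, fun _ => 1, fun _ => x, fun _ => y, by simp, by simp⟩

variable [Module ℝ X]

/-- the barycentre map on finite combinations -/
noncomputable def betLin (p : ℝ) (X : Type*) [NormedAddCommGroup X] [Module ℝ X] :
    FreePre p X →ₗ[ℝ] X :=
  (Finsupp.linearCombination ℝ (fun x : {x : X // x ≠ 0} => x.1) :
    ({x : X // x ≠ 0} →₀ ℝ) →ₗ[ℝ] X)

lemma betLin_dl (x : X) : betLin p X (dl p x) = x := by
  by_cases h : x = 0
  · subst h
    rw [dl_zero, map_zero]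
  · rw [dl_ne h]
    exact (Finsupp.linearCombination_single ℝ (1 : ℝ) (⟨x, h⟩ : {x : X // x ≠ 0})).trans
      (one_smul ℝ x)

lemma norm_betLin [PNormed p X] (μ : FreePre p X) : ‖betLin p X μ‖ ≤ ‖μ‖ := by
  refine le_csInf (costs_nonempty μ) ?_
  rintro r ⟨n, a, x, y, hμ, rfl⟩
  rw [hμ, map_sum]
  refine (norm_sum_le _ _).trans (Finset.sum_le_sum fun i _ => ?_)
  rw [map_smul, map_sub, betLin_dl, betLin_dl, PNormed.norm_smul_p (p := p)]

/-- the barycentre map on finite combinations, as a continuous map -/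
noncomputable def betPre (p : ℝ) (X : Type*) [NormedAddCommGroup X] [Module ℝ X] [PNormed p X] :
    FreePre p X →L[ℝ] X where
  toLinearMap := betLin p X
  cont := AddMonoidHomClass.continuous_of_bound (betLin p X) 1 fun μ => by
    rw [one_mul]; exact norm_betLin μ

variable [PNormed p X] [CompleteSpace X] [UniformContinuousConstSMul ℝ X]

/-- the barycentre map -/
noncomputable def bet (p : ℝ) (X : Type*) [NormedAddCommGroup X] [Module ℝ X] [PNormed p X]
    [CompleteSpace X] [UniformContinuousConstSMul ℝ X] : FreeP p X →L[ℝ] X :=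
  (betPre p X).fromCompletion

/-- the canonical embedding of `X` in the free space -/
noncomputable def del (p : ℝ) {X : Type*} [NormedAddCommGroup X] (x : X) : FreeP p X :=
  Completion.coe' (dl p x)

lemma bet_del (x : X) : bet p X (del p x) = x := by
  rw [bet, del, ContinuousLinearMap.fromCompletion_apply_coe]
  exact betLin_dl x

/-- operators from the free space into a rigid space -/
lemma op_mult [Fact (0 < p)]
    (hX : ∀ f : X → X, (∃ C : ℝ, ∀ x y, ‖f x - f y‖ ≤ C * ‖x - y‖) →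
      ∃ l : ℝ, ∀ x, f x = f 0 + l • x) (S : FreeP p X →L[ℝ] X) :
    ∃ l : ℝ, ∀ v, S v = l • bet p X v := by
  obtain ⟨C, hC⟩ := bound_of_continuous (p := p) S
  obtain ⟨l, hl⟩ := hX (fun x => S (del p x)) ⟨max C 0, fun x y => by
    rw [← map_sub]
    refine (hC _).trans ?_
    have h1 : ‖del p x - del p y‖ ≤ ‖x - y‖ := by
      rw [del, del, ← Completion.coe_sub, Completion.norm_coe]
      exact norm_dl_sub x y
    calc C * ‖del p x - del p y‖ ≤ max C 0 * ‖del p x - del p y‖ :=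
          mul_le_mul_of_nonneg_right (le_max_left _ _) (norm_nonneg _)
      _ ≤ max C 0 * ‖x - y‖ := mul_le_mul_of_nonneg_left h1 (le_max_right _ _)⟩
  have h0 : S (del p (0 : X)) = 0 := by
    rw [del, dl_zero, Completion.coe_zero, map_zero]
  refine ⟨l, fun v => ?_⟩
  refine Completion.induction_on v ?_ ?_
  · exact isClosed_eq S.continuous ((bet p X).continuous.const_smul l)
  · intro μ
    refine Finsupp.induction_linear (motive := fun μ : {x : X // x ≠ 0} →₀ ℝ =>
      S (Completion.coe' (α := FreePre p X) μ) =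
        l • bet p X (Completion.coe' (α := FreePre p X) μ)) μ ?_ ?_ ?_
    · have : (Completion.coe' (α := FreePre p X) (0 : {x : X // x ≠ 0} →₀ ℝ)) = 0 :=
        Completion.coe_zero
      rw [this, map_zero, map_zero, smul_zero]
    · intro f g hf hg
      have : (Completion.coe' (α := FreePre p X) (f + g)) =
          Completion.coe' (α := FreePre p X) f + Completion.coe' (α := FreePre p X) g :=
        Completion.coe_add (α := FreePre p X) f g
      rw [this, map_add, map_add, smul_add, hf, hg]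
    · rintro ⟨x, hx⟩ t
      have : (Completion.coe' (α := FreePre p X)
          (Finsupp.single (⟨x, hx⟩ : {x : X // x ≠ 0}) t)) = t • del p x := by
        rw [del, ← Completion.coe_smul, dl_ne hx]
        congr 1
        exact ((Finsupp.smul_single t _ _).trans (by simp)).symm
      rw [this, map_smul, map_smul, bet_del, hl x, h0, zero_add, smul_comm]

/-- no continuous surjection onto the square -/
theorem no_surj [Fact (0 < p)]
    (hX : ∀ f : X → X, (∃ C : ℝ, ∀ x y, ‖f x - f y‖ ≤ C * ‖x - y‖) →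
      ∃ l : ℝ, ∀ x, f x = f 0 + l • x) (e : X) (he : e ≠ 0)
    (S₀ S₁ : FreeP p X →L[ℝ] FreeP p X) :
    ¬ ((∃ z, S₀ z = del p e ∧ S₁ z = 0) ∧ ∃ z, S₀ z = 0 ∧ S₁ z = del p e) := by
  rintro ⟨⟨z, hz0, hz1⟩, ⟨z', -, hz1'⟩⟩
  obtain ⟨l₀, h₀⟩ := op_mult hX ((bet p X).comp S₀)
  obtain ⟨l₁, h₁⟩ := op_mult hX ((bet p X).comp S₁)
  have e1 := h₀ z
  have e2 := h₁ z
  have e3 := h₁ z'
  simp only [ContinuousLinearMap.comp_apply] at e1 e2 e3
  rw [hz0, bet_del] at e1
  rw [hz1, map_zero] at e2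
  rw [hz1', bet_del] at e3
  have hb : bet p X z ≠ 0 := by
    intro h
    rw [h, smul_zero] at e1
    exact he e1
  rcases smul_eq_zero.1 e2.symm with h | h
  · rw [h, zero_smul] at e3
    exact he e3
  · exact hb h

end free

/-- the coordinate maps of `ℓ_p(Y)` -/
noncomputable def coL (p : ℝ) (Y : Type*) [NormedAddCommGroup Y] [Module ℝ Y] [PNormed p Y]
    (n : ℕ) : EllP p Y →L[ℝ] Y where
  toFun := fun y => y.co n
  map_add' := fun _ _ => rfl
  map_smul' := fun _ _ => rfl
  cont := AddMonoidHomClass.continuous_of_bound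
    ({ toFun := fun y => y.co n, map_zero' := rfl, map_add' := fun _ _ => rfl } : EllP p Y →+ Y)
    1 fun y => by rw [one_mul]; exact y.norm_co_le n

lemma exists_single {Y : Type*} [NormedAddCommGroup Y] [Module ℝ Y] [PNormed p Y] (i : ℕ) (w : Y) :
    ∃ y : EllP p Y, y.co i = w ∧ ∀ j, j ≠ i → y.co j = 0 := by
  refine ⟨⟨Pi.single i w, ?_⟩, ?_, ?_⟩
  · refine summable_of_ne_finset_zero (s := {i}) fun j hj => ?_
    rw [Finset.mem_singleton] at hj
    rw [Pi.single_eq_of_ne hj, norm_zero]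
  · exact Pi.single_eq_same (M := fun _ => Y) i w
  · intro j hj
    exact Pi.single_eq_of_ne (M := fun _ => Y) hj w

/-- **The main theorem.** -/
theorem main (p : ℝ) [Fact (0 < p)] (hp1 : p < 1) :
    ∃ (X : Type) (_ : NormedAddCommGroup X) (_ : Module ℝ X) (_ : PNormed p X)
      (_ : CompleteSpace X),
      (∀ f : X → X, (∃ C : ℝ, ∀ x y, ‖f x - f y‖ ≤ C * ‖x - y‖) →
        ∃ l : ℝ, ∀ x, f x = f 0 + l • x) ∧
      (∀ T : FreeP p X →L[ℝ] FreeP p X × FreeP p X, ¬ Function.Surjective T) ∧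
      IsEmpty (FreeP p X ≃L[ℝ] EllP p (FreeP p X)) := by
  have : Pex p := ⟨Fact.out, hp1⟩
  obtain ⟨D⟩ := exists_dat hp1
  have hX : ∀ f : D.XX → D.XX, (∃ C : ℝ, ∀ x y, ‖f x - f y‖ ≤ C * ‖x - y‖) →
      ∃ l : ℝ, ∀ x, f x = f 0 + l • x := by
    rintro f ⟨C, hC⟩
    exact D.lipschitz_affine f C hC
  obtain ⟨e, he⟩ : ∃ e : D.XX, e ≠ 0 := by
    refine ⟨D.io (Finsupp.single 0 1), fun h => ?_⟩
    exact one_ne_zero (D.indep 1 0 (by rw [h, smul_zero, zero_smul, zero_add])).1
  refine ⟨D.XX, inferInstance, inferInstance, inferInstance, inferInstance, hX, ?_, ⟨fun T => ?_⟩⟩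
  · intro T hT
    refine no_surj hX e he ((ContinuousLinearMap.fst ℝ _ _).comp T)
      ((ContinuousLinearMap.snd ℝ _ _).comp T) ⟨?_, ?_⟩
    · obtain ⟨z, hz⟩ := hT (del p e, 0)
      exact ⟨z, by simp [hz], by simp [hz]⟩
    · obtain ⟨z, hz⟩ := hT (0, del p e)
      exact ⟨z, by simp [hz], by simp [hz]⟩
  · refine no_surj hX e he ((coL p _ 0).comp (T : FreeP p D.XX →L[ℝ] EllP p (FreeP p D.XX)))
      ((coL p _ 1).comp (T : FreeP p D.XX →L[ℝ] EllP p (FreeP p D.XX))) ⟨?_, ?_⟩
    · obtain ⟨y, hy, hy'⟩ := exists_single (p := p) 0 (del p e)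
      obtain ⟨z, hz⟩ := T.surjective y
      refine ⟨z, ?_, ?_⟩
      · show (T z).co 0 = del p e
        rw [hz, hy]
      · show (T z).co 1 = 0
        rw [hz, hy' 1 (by norm_num)]
    · obtain ⟨y, hy, hy'⟩ := exists_single (p := p) 1 (del p e)
      obtain ⟨z, hz⟩ := T.surjective y
      refine ⟨z, ?_, ?_⟩
      · show (T z).co 0 = 0
        rw [hz, hy' 0 (by norm_num)]
      · show (T z).co 1 = del p e
        rw [hz, hy]

end Pool.Agent.K7.H82.PB
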