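import Pool.Agent.K7.H82.PB.Space

/-!
# The `p`-Banach space and the rigidity lemma
-/

set_option autoImplicit false
open Filter Topology UniformSpace

namespace Pool.Agent.K7.H82.PB

variable {p : ℝ} [hp : Pex p]

namespace Dat

variable (D : Dat p)

/-- the seminorm (its `p`-th power) -/
noncomputable def nrm (c : ℕ →₀ ℝ) : ℝ := ⨅ t : ℕ →₀ ℝ, D.Phi (c - D.Rel t)

omit hp in
lemma nrm_bdd (c : ℕ →₀ ℝ) : BddBelow (Set.range fun t : ℕ →₀ ℝ => D.Phi (c - D.Rel t)) :=
  ⟨0, by rintro _ ⟨t, rfl⟩; exact D.Phi_nonneg _⟩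

omit hp in
lemma nrm_le (c t : ℕ →₀ ℝ) : D.nrm c ≤ D.Phi (c - D.Rel t) := ciInf_le (D.nrm_bdd c) t

omit hp in
lemma nrm_le_Phi (c : ℕ →₀ ℝ) : D.nrm c ≤ D.Phi c := by
  simpa using D.nrm_le c 0

omit hp in
lemma exists_of_nrm_lt {c : ℕ →₀ ℝ} {η : ℝ} (h : D.nrm c < η) : ∃ t, D.Phi (c - D.Rel t) < η :=
  exists_lt_of_ciInf_lt h

omit hp in
lemma nrm_nonneg (c : ℕ →₀ ℝ) : 0 ≤ D.nrm c := le_ciInf fun _ => D.Phi_nonneg _

omit hp in
lemma nrm_zero : D.nrm 0 = 0 :=
  le_antisymm ((D.nrm_le_Phi 0).trans D.Phi_zero.le) (D.nrm_nonneg 0)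

lemma nrm_add (c d : ℕ →₀ ℝ) : D.nrm (c + d) ≤ D.nrm c + D.nrm d := by
  refine le_of_forall_pos_le_add fun ε hε => ?_
  obtain ⟨t, ht⟩ := D.exists_of_nrm_lt (lt_add_of_pos_right (D.nrm c) (half_pos hε))
  obtain ⟨s, hs⟩ := D.exists_of_nrm_lt (lt_add_of_pos_right (D.nrm d) (half_pos hε))
  have h1 := D.nrm_le (c + d) (t + s)
  have h2 : c + d - D.Rel (t + s) = (c - D.Rel t) + (d - D.Rel s) := by
    rw [map_add]; abel
  rw [h2] at h1
  linarith [D.Phi_add (c - D.Rel t) (d - D.Rel s)]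

lemma nrm_smul_le (a : ℝ) (c : ℕ →₀ ℝ) : D.nrm (a • c) ≤ |a| ^ p * D.nrm c := by
  refine le_of_forall_pos_le_add fun ε hε => ?_
  have hc : 0 ≤ |a| ^ p := ap_nonneg a
  obtain ⟨t, ht⟩ := D.exists_of_nrm_lt
    (lt_add_of_pos_right (D.nrm c) (div_pos hε (by linarith : 0 < |a| ^ p + 1)))
  have h1 := D.nrm_le (a • c) (a • t)
  rw [map_smul, ← smul_sub, D.Phi_smul] at h1
  have h2 : |a| ^ p * D.Phi (c - D.Rel t) ≤ |a| ^ p * (D.nrm c + ε / (|a| ^ p + 1)) :=
    mul_le_mul_of_nonneg_left ht.le hc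
  have h3 : |a| ^ p * (ε / (|a| ^ p + 1)) ≤ ε := by
    rw [← mul_div_assoc, div_le_iff₀ (by linarith)]
    nlinarith
  linarith [mul_add (|a| ^ p) (D.nrm c) (ε / (|a| ^ p + 1))]

lemma nrm_smul (a : ℝ) (c : ℕ →₀ ℝ) : D.nrm (a • c) = |a| ^ p * D.nrm c := by
  rcases eq_or_ne a 0 with rfl | ha
  · rw [zero_smul, nrm_zero, ap_zero, zero_mul]
  refine le_antisymm (D.nrm_smul_le a c) ?_
  have h := D.nrm_smul_le a⁻¹ (a • c)
  rw [smul_smul, inv_mul_cancel₀ ha, one_smul, abs_inv, Real.inv_rpow (abs_nonneg _)] at h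
  have hc : 0 < |a| ^ p := Real.rpow_pos_of_pos (abs_pos.2 ha) _
  calc |a| ^ p * D.nrm c ≤ |a| ^ p * ((|a| ^ p)⁻¹ * D.nrm (a • c)) :=
        mul_le_mul_of_nonneg_left h hc.le
    _ = D.nrm (a • c) := by rw [← mul_assoc, mul_inv_cancel₀ hc.ne', one_mul]

lemma nrm_neg (c : ℕ →₀ ℝ) : D.nrm (-c) = D.nrm c := by
  have := D.nrm_smul (-1) c
  simpa using this

omit hp in
lemma nrm_Rel (t : ℕ →₀ ℝ) : D.nrm (D.Rel t) = 0 := by
  refine le_antisymm ?_ (D.nrm_nonneg _)
  have := D.nrm_le (D.Rel t) t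
  rwa [sub_self, D.Phi_zero] at this

omit hp in
lemma nrm_single_le (n : ℕ) : D.nrm (Finsupp.single n 1) ≤ D.W n := by
  classical
  refine (D.nrm_le_Phi _).trans ?_
  rw [Phi, Finsupp.support_single n one_ne_zero, Finset.sum_singleton,
    Finsupp.single_eq_same, abs_one, Real.one_rpow, mul_one]

/-- **Only multiples of `ξ_k` in the lower levels are close to elements of small mass.** -/
lemma near_mult {v u : ℕ →₀ ℝ} {k : ℕ} {κ η : ℝ} (hκ : 0 ≤ κ) (hv : ∀ n, D.M k ≤ n → v n = 0)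
    (hu : ∀ n, n < D.M k → u n = 0) (hu' : D.Phi u ≤ κ * D.R k) (h : D.nrm (v - u) < η) :
    ∃ s : ℝ, D.nrm (v - s • D.xi k) ≤ 2 * (η + κ * (1 / 2) ^ k) := by
  obtain ⟨t, ht⟩ := D.exists_of_nrm_lt h
  have hA : ∀ l, k < l → D.A (v - u) l ≤ κ * D.R k := by
    intro l hl
    refine le_trans ?_ hu'
    rw [A, D.Phi_eq (c := u) (s := u.support ∪ Finset.Ico (D.M l) (D.M (l + 1)))
      Finset.subset_union_left]
    refine (Finset.sum_congr rfl fun n hn => ?_).trans_le
      (Finset.sum_le_sum_of_subset_of_nonneg (Finset.subset_union_right)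
        fun n _ _ => D.term_nonneg n _)
    have h1 : D.M k ≤ n := (D.M_mono hl.le).trans (Finset.mem_Ico.1 hn).1
    rw [Finsupp.sub_apply, hv n h1, zero_sub, abs_neg]
  have h1 := D.E_le (v - u) t hκ hA
  have h2 : D.E (v - u) t k ≤ 2 * (η + κ * (1 / 2) ^ k) := by
    refine h1.trans ?_
    have : (0 : ℝ) < (1 / 2) ^ k := by positivity
    linarith
  cases k with
  | zero =>
    refine ⟨0, ?_⟩
    have h3 : v = 0 := by
      ext n
      exact hv n (by rw [D.M0]; exact Nat.zero_le _)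
    rw [h3, zero_smul, sub_zero, nrm_zero]
    exact (D.E_nonneg _ _ _).trans h2
  | succ m =>
    refine ⟨t (m + 1), ?_⟩
    refine (D.nrm_le _ (tl t m)).trans (le_trans ?_ h2)
    rw [D.E_split, D.Phi_eq_Psi (m := D.M (m + 1))]
    · have h4 : Psi p D.W (D.M (m + 1)) (v - t (m + 1) • D.xi (m + 1) - D.Rel (tl t m) : ℕ →₀ ℝ) =
          Psi p D.W (D.M (m + 1)) (fun n => (v - u) n - D.Rel (tl t (m + 1)) n) := by
        refine psi_congr (fun n _ => rfl) fun n hn => ?_
        rw [tl_succ, LinearMap.map_add, Finsupp.add_apply, Rel_single, Finsupp.smul_apply, rr_apply,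
          if_neg (by omega), Finsupp.sub_apply, Finsupp.sub_apply, Finsupp.sub_apply, hu n hn,
          Finsupp.smul_apply, smul_eq_mul, smul_eq_mul]
        ring
      rw [h4]
      have h5 : 0 ≤ ∑ n ∈ Finset.Ico (D.M (m + 1)) (D.M (m + 1 + 1)),
          D.W n * |(v - u) n + t (m + 1)| ^ p := Finset.sum_nonneg fun n _ => D.term_nonneg n _
      linarith
    · intro n hn
      rw [Finsupp.sub_apply, Finsupp.sub_apply, hv n hn, Finsupp.smul_apply,
        D.supp (m + 1) n hn, D.Rel_tl_high t m n hn]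
      simp

/-- a sum of `N_k` elements of small mass -/
lemma sum_split {k : ℕ} {κ : ℝ} (hκ : 0 ≤ κ) (c : ℕ → (ℕ →₀ ℝ))
    (hc : ∀ j, D.Phi (c j) ≤ κ * D.w k) :
    D.Phi ((∑ j ∈ Finset.range (D.N k), c j).filter (fun n => D.M k ≤ n)) ≤ κ * D.R k ∧
    D.Phi ((∑ j ∈ Finset.range (D.N k), c j).filter (fun n => n < D.M k)) ≤
      κ * (1 / ((k : ℝ) + 1)) := by
  classical
  constructor
  · have h1 : (∑ j ∈ Finset.range (D.N k), c j).filter (fun n => D.M k ≤ n) =
        ∑ j ∈ Finset.range (D.N k), (c j).filter (fun n => D.M k ≤ n) :=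
      map_sum (Finsupp.filterAddHom (fun n => D.M k ≤ n)) _ _
    rw [h1]
    refine (D.Phi_sum _ _).trans ?_
    have h2 : ∀ j, D.Phi ((c j).filter (fun n => D.M k ≤ n)) ≤ κ * D.w k := by
      intro j
      refine le_trans ?_ (hc j)
      rw [Phi, Phi, Finsupp.support_filter]
      refine (Finset.sum_congr rfl fun n hn => ?_).trans_le
        (Finset.sum_le_sum_of_subset_of_nonneg (Finset.filter_subset _ _)
          fun n _ _ => D.term_nonneg n _)
      rw [Finsupp.filter_apply_pos _ _ (Finset.mem_filter.1 hn).2]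
    refine (Finset.sum_le_sum fun j _ => h2 j).trans ?_
    rw [Finset.sum_const, Finset.card_range, nsmul_eq_mul, ← D.N_w k]
    exact le_of_eq (by ring)
  · rw [D.Phi_eq_Psi (m := D.M k) (fun n hn => Finsupp.filter_apply_neg _ _ (not_lt.2 hn)), Psi]
    have hN := D.N_pos k
    have key : ∀ n ∈ Finset.range (D.M k), D.W n *
        |((∑ j ∈ Finset.range (D.N k), c j).filter (fun n => n < D.M k)) n| ^ p ≤
        κ * (D.R k * (D.N k : ℝ) ^ (p - 1)) := by
      intro n hn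
      have hWn := D.W_pos n
      have hp0 := hp.pos
      rw [Finsupp.filter_apply_pos (fun n => n < D.M k) (∑ j ∈ Finset.range (D.N k), c j)
        (Finset.mem_range.1 hn), Finsupp.finsetSum_apply]
      have h1 : ∀ j, |c j n| ≤ (κ * D.w k / D.W n) ^ (1 / p) := by
        intro j
        have h2 : D.W n * |c j n| ^ p ≤ κ * D.w k := by
          refine le_trans ?_ (hc j)
          rw [D.Phi_eq (c := c j) (s := insert n (c j).support) (Finset.subset_insert _ _)]
          exact Finset.single_le_sum (f := fun n => D.W n * |c j n| ^ p)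
            (fun n _ => D.term_nonneg n _) (Finset.mem_insert_self _ _)
        have h3 : |c j n| ^ p ≤ κ * D.w k / D.W n := by
          rw [le_div_iff₀ hWn]; linarith
        calc |c j n| = (|c j n| ^ p) ^ (1 / p) := by
              rw [← Real.rpow_mul (abs_nonneg _), mul_one_div_cancel hp0.ne', Real.rpow_one]
          _ ≤ _ := Real.rpow_le_rpow (ap_nonneg _) h3 (by positivity)
      have hb : 0 ≤ κ * D.w k / D.W n := div_nonneg (mul_nonneg hκ (D.w_pos k).le) hWn.le
      have h4 : |∑ j ∈ Finset.range (D.N k), c j n| ≤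
          (D.N k : ℝ) * (κ * D.w k / D.W n) ^ (1 / p) := by
        refine (Finset.abs_sum_le_sum_abs _ _).trans ?_
        refine (Finset.sum_le_sum fun j _ => h1 j).trans ?_
        rw [Finset.sum_const, Finset.card_range, nsmul_eq_mul]
      have h5 : |∑ j ∈ Finset.range (D.N k), c j n| ^ p ≤
          (D.N k : ℝ) ^ p * (κ * D.w k / D.W n) := by
        refine (Real.rpow_le_rpow (abs_nonneg _) h4 hp0.le).trans ?_
        rw [Real.mul_rpow hN.le (Real.rpow_nonneg hb _), ← Real.rpow_mul hb,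
          one_div_mul_cancel hp0.ne', Real.rpow_one]
      calc D.W n * |∑ j ∈ Finset.range (D.N k), c j n| ^ p
          ≤ D.W n * ((D.N k : ℝ) ^ p * (κ * D.w k / D.W n)) :=
            mul_le_mul_of_nonneg_left h5 hWn.le
        _ = κ * (D.w k * (D.N k : ℝ) ^ p) := by field_simp
        _ = κ * (D.R k * (D.N k : ℝ) ^ (p - 1)) := by
            rw [w, Real.rpow_sub_one hN.ne']
            field_simp
    refine (Finset.sum_le_sum key).trans ?_
    rw [Finset.sum_const, Finset.card_range, nsmul_eq_mul]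
    have h6 := D.small k
    rw [← D.N_cast k] at h6
    calc (D.M k : ℝ) * (κ * (D.R k * (D.N k : ℝ) ^ (p - 1)))
        = κ * ((D.M k : ℝ) * D.R k * (D.N k : ℝ) ^ (p - 1)) := by ring
      _ ≤ _ := mul_le_mul_of_nonneg_left h6 hκ

/-- the dense subspace -/
def VV (_D : Dat p) : Type := ℕ →₀ ℝ

noncomputable instance : AddCommGroup D.VV := inferInstanceAs (AddCommGroup (ℕ →₀ ℝ))
noncomputable instance : Module ℝ D.VV := inferInstanceAs (Module ℝ (ℕ →₀ ℝ))

noncomputable instance : SeminormedAddCommGroup D.VV :=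
  AddGroupSeminorm.toSeminormedAddCommGroup
    { toFun := fun c => D.nrm c
      map_zero' := D.nrm_zero
      add_le' := D.nrm_add
      neg' := D.nrm_neg }

instance : PNormed p D.VV where
  norm_smul_p := fun t c => D.nrm_smul t c

instance : UniformContinuousConstSMul ℝ D.VV where
  uniformContinuous_const_smul := by
    intro t
    have hc : 0 ≤ |t| ^ p := ap_nonneg t
    refine LipschitzWith.uniformContinuous (K := ⟨|t| ^ p, hc⟩) ?_
    refine LipschitzWith.of_dist_le_mul fun μ ν => ?_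
    rw [dist_eq_norm, dist_eq_norm, ← smul_sub]
    exact (PNormed.norm_smul_p (p := p) t _).le

/-- the `p`-Banach space -/
abbrev XX : Type := Completion D.VV

instance : PNormed p D.XX := pnormed_completion

/-- the inclusion of the dense subspace -/
noncomputable def io (c : ℕ →₀ ℝ) : D.XX := Completion.coe' (α := D.VV) c

lemma norm_io (c : ℕ →₀ ℝ) : ‖D.io c‖ = D.nrm c := Completion.norm_coe (E := D.VV) c

lemma io_add (c d : ℕ →₀ ℝ) : D.io (c + d) = D.io c + D.io d := Completion.coe_add (α := D.VV) c d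

lemma io_sub (c d : ℕ →₀ ℝ) : D.io (c - d) = D.io c - D.io d := Completion.coe_sub (α := D.VV) c d

lemma io_zero : D.io 0 = 0 := Completion.coe_zero (α := D.VV)

lemma io_smul (t : ℝ) (c : ℕ →₀ ℝ) : D.io (t • c) = t • D.io c :=
  Completion.coe_smul (M := ℝ) (X := D.VV) t c

lemma io_sum {ι : Type*} (s : Finset ι) (f : ι → (ℕ →₀ ℝ)) :
    D.io (∑ i ∈ s, f i) = ∑ i ∈ s, D.io (f i) := by
  classical
  induction s using Finset.induction_on with
  | empty => rw [Finset.sum_empty, Finset.sum_empty, io_zero]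
  | insert a s ha ih => rw [Finset.sum_insert ha, Finset.sum_insert ha, io_add, ih]

lemma io_Rel (t : ℕ →₀ ℝ) : D.io (D.Rel t) = 0 := by
  rw [← norm_eq_zero, norm_io, nrm_Rel]

lemma exists_io (x : D.XX) {ε : ℝ} (hε : 0 < ε) : ∃ c, ‖x - D.io c‖ < ε := by
  have h := (Completion.denseRange_coe (α := D.VV)).exists_dist_lt x hε
  obtain ⟨c, hc⟩ := h
  exact ⟨c, by rwa [dist_eq_norm] at hc⟩

/-- **The rigidity lemma.** -/
lemma rigid {ξ : ℕ →₀ ℝ} {y : D.XX} {C : ℝ} (hC : 0 < C)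
    (h : ∀ K, ∃ k ≥ K, D.xi k = ξ ∧ ∃ z : ℕ → D.XX, y = ∑ j ∈ Finset.range (D.N k), z j ∧
      ∀ j, ‖z j‖ ≤ C * D.w k) {ε : ℝ} (hε : 0 < ε) : ∃ s : ℝ, ‖y - s • D.io ξ‖ ≤ ε := by
  obtain ⟨v, hv⟩ := D.exists_io y (show 0 < ε / 16 by positivity)
  obtain ⟨B, hB⟩ : ∃ B, ∀ n ∈ v.support, n < B :=
    ⟨v.support.sup id + 1, fun n hn => Nat.lt_succ_of_le (Finset.le_sup (f := id) hn)⟩
  set κ : ℝ := 2 * C with hκ
  have hκ0 : 0 < κ := by positivity
  -- a large index
  have hev : ∀ᶠ k : ℕ in atTop, κ * (1 / ((k : ℝ) + 1)) < ε / 16 ∧ κ * (1 / 2) ^ k < ε / 16 := by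
    have e1 : Tendsto (fun k : ℕ => κ * (1 / ((k : ℝ) + 1))) atTop (𝓝 (κ * 0)) :=
      tendsto_one_div_add_atTop_nhds_zero_nat.const_mul κ
    have e2 : Tendsto (fun k : ℕ => κ * (1 / 2 : ℝ) ^ k) atTop (𝓝 (κ * 0)) :=
      (tendsto_pow_atTop_nhds_zero_of_lt_one (by norm_num) (by norm_num)).const_mul κ
    rw [mul_zero] at e1 e2
    exact (e1.eventually (gt_mem_nhds (by positivity))).and
      (e2.eventually (gt_mem_nhds (by positivity)))
  obtain ⟨K, hK⟩ := eventually_atTop.1 hev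
  obtain ⟨k, hk, hxi, z, hz, hz'⟩ := h (max K B)
  obtain ⟨hk1, hk2⟩ := hK k ((le_max_left _ _).trans hk)
  have hvM : ∀ n, D.M k ≤ n → v n = 0 := by
    intro n hn
    by_contra hne
    have h1 := hB n (Finsupp.mem_support_iff.2 hne)
    have h2 := D.M_ge k
    have h3 := (le_max_right K B).trans hk
    omega
  -- approximate the summands
  have hN := D.N_pos k
  have hw := D.w_pos k
  have happ : ∀ j, ∃ c : ℕ →₀ ℝ, D.Phi c ≤ κ * D.w k ∧ ‖z j - D.io c‖ ≤ ε / 16 / D.N k := by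
    intro j
    obtain ⟨c, hc⟩ := D.exists_io (z j)
      (show 0 < min (C * D.w k / 2) (ε / 16 / D.N k) by positivity)
    have h1 : D.nrm c < κ * D.w k := by
      rw [← norm_io]
      have h2 : ‖D.io c‖ ≤ ‖z j‖ + ‖z j - D.io c‖ := by
        have := norm_sub_le (z j) (z j - D.io c)
        rwa [sub_sub_cancel] at this
      have h3 := hc.trans_le (min_le_left _ _)
      have h4 := hz' j
      have h5 : 0 < C * D.w k := by positivity
      rw [hκ]; linarith
    obtain ⟨t, ht⟩ := D.exists_of_nrm_lt h1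
    refine ⟨c - D.Rel t, ht.le, ?_⟩
    rw [io_sub, io_Rel, sub_zero]
    exact (hc.trans_le (min_le_right _ _)).le
  choose c hc hc' using happ
  obtain ⟨hs1, hs2⟩ := D.sum_split hκ0.le c hc
  set S := ∑ j ∈ Finset.range (D.N k), c j with hS
  have hyS : ‖y - D.io S‖ ≤ ε / 16 := by
    rw [hz, hS, io_sum, ← Finset.sum_sub_distrib]
    refine (norm_sum_le _ _).trans ((Finset.sum_le_sum fun j _ => hc' j).trans ?_)
    rw [Finset.sum_const, Finset.card_range, nsmul_eq_mul]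
    exact le_of_eq (by field_simp)
  set u := S.filter (fun n => D.M k ≤ n) with hu
  set u' := S.filter (fun n => n < D.M k) with hu'
  have hSu : S = u + u' := by
    have := Finsupp.filter_add_filter_not S (fun n => D.M k ≤ n)
    rw [← this, hu, hu']
    congr 1
    ext n
    simp only [Finsupp.filter_apply, not_le]
  have hu'n : ‖D.io u'‖ ≤ ε / 16 := by
    rw [norm_io]
    exact (D.nrm_le_Phi _).trans (hs2.trans hk1.le)
  have h1 : D.nrm (v - u) < ε / 4 := by
    rw [← norm_io, io_sub]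
    have h2 : D.io v - D.io u = (D.io v - y) + (y - D.io S) + D.io u' := by
      rw [hSu, io_add]; abel
    rw [h2]
    refine (norm_add_le _ _).trans_lt ?_
    have h3 := norm_add_le (D.io v - y) (y - D.io S)
    have h4 : ‖D.io v - y‖ < ε / 16 := by rw [norm_sub_rev]; exact hv
    linarith
  obtain ⟨s, hs⟩ := D.near_mult hκ0.le hvM
    (fun n hn => Finsupp.filter_apply_neg (fun n => D.M k ≤ n) _ (not_le.2 hn)) hs1 h1
  refine ⟨s, ?_⟩
  rw [hxi, ← norm_io, io_sub, io_smul] at hs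
  have h5 : y - s • D.io ξ = (y - D.io v) + (D.io v - s • D.io ξ) := by abel
  rw [h5]
  refine (norm_add_le _ _).trans ?_
  linarith

end Dat

end Pool.Agent.K7.H82.PB
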