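import Pool.Agent.K7.H82.PB.Norm

/-!
# Lipschitz self-maps are affine
-/

set_option autoImplicit false
open Filter Topology UniformSpace

namespace Pool.Agent.K7.H82.PB

variable {p : ℝ} [hp : Pex p]

/-- multiples of a vector form a closed set -/
lemma mult_closed {V : Type*} [NormedAddCommGroup V] [Module ℝ V] [PNormed p V] (x y : V)
    (h : ∀ ε : ℝ, 0 < ε → ∃ s : ℝ, ‖y - s • x‖ ≤ ε) : ∃ s : ℝ, y = s • x := by
  have hp0 := hp.pos
  rcases eq_or_ne x 0 with rfl | hx
  · refine ⟨0, ?_⟩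
    rw [zero_smul, ← norm_eq_zero]
    refine le_antisymm (le_of_forall_pos_le_add fun ε hε => ?_) (norm_nonneg _)
    obtain ⟨s, hs⟩ := h ε hε
    rw [smul_zero, sub_zero] at hs
    linarith
  have hxn : 0 < ‖x‖ := norm_pos_iff.2 hx
  choose s hs using fun n : ℕ => h (1 / ((n : ℝ) + 1)) (by positivity)
  have hlim := tendsto_one_div_add_atTop_nhds_zero_nat (𝕜 := ℝ)
  have hdiff : ∀ m n, |s m - s n| ^ p * ‖x‖ ≤ 1 / ((m : ℝ) + 1) + 1 / ((n : ℝ) + 1) := by
    intro m n
    rw [← PNormed.norm_smul_p (p := p), sub_smul]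
    have h1 : s m • x - s n • x = -(y - s m • x) + (y - s n • x) := by abel
    rw [h1]
    refine (norm_add_le _ _).trans ?_
    rw [norm_neg]
    exact add_le_add (hs m) (hs n)
  have hcau : CauchySeq s := by
    rw [Metric.cauchySeq_iff]
    intro ε hε
    have hb : 0 < ε ^ p * ‖x‖ / 2 := by positivity
    obtain ⟨K, hK⟩ := eventually_atTop.1 (hlim.eventually (gt_mem_nhds hb))
    refine ⟨K, fun m hm n hn => ?_⟩
    rw [Real.dist_eq]
    have h1 := hdiff m n
    have h2 := hK m hm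
    have h3 := hK n hn
    have h4 : |s m - s n| ^ p * ‖x‖ < ε ^ p * ‖x‖ := by linarith
    have h5 := lt_of_mul_lt_mul_right h4 hxn.le
    exact (Real.rpow_lt_rpow_iff (abs_nonneg _) hε.le hp0).1 h5
  obtain ⟨s', hs'⟩ := cauchySeq_tendsto_of_complete hcau
  refine ⟨s', ?_⟩
  rw [← sub_eq_zero, ← norm_eq_zero]
  have h1 : Tendsto (fun n : ℕ => 1 / ((n : ℝ) + 1) + |s n - s'| ^ p * ‖x‖) atTop
      (𝓝 (0 + |s' - s'| ^ p * ‖x‖)) := by
    refine hlim.add (Tendsto.mul_const _ ?_)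
    exact ((hs'.sub_const s').abs).rpow_const (Or.inr hp0.le)
  rw [sub_self, ap_zero, zero_mul, add_zero] at h1
  refine le_antisymm (ge_of_tendsto' h1 fun n => ?_) (norm_nonneg _)
  have h2 : y - s' • x = (y - s n • x) + (s n - s') • x := by rw [sub_smul]; abel
  rw [h2]
  refine (norm_add_le _ _).trans (add_le_add (hs n) ?_)
  rw [PNormed.norm_smul_p (p := p)]

/-- a map that moves in the direction of the increment is a homothety -/
lemma homothety {V : Type*} [AddCommGroup V] [Module ℝ V] (e₀ e₁ : V)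
    (he : ∀ α β : ℝ, α • e₀ + β • e₁ = 0 → α = 0 ∧ β = 0) (f : V → V)
    (h : ∀ a x, ∃ s : ℝ, f (a + x) - f a = s • x) : ∃ l : ℝ, ∀ x, f x = f 0 + l • x := by
  choose s hs using h
  set g : V → ℝ := fun x => s 0 x with hg
  have hgx : ∀ x, f x = f 0 + g x • x := by
    intro x
    have := hs 0 x
    rw [zero_add] at this
    rw [hg, ← this]
    abel
  have hind : ∀ x y : V, (∀ α β : ℝ, α • x + β • y = 0 → α = 0 ∧ β = 0) → g x = g y := by
    intro x y hxy
    have h1 := hs x (y - x)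
    rw [add_sub_cancel, hgx x, hgx y] at h1
    have h2 : (s x (y - x) - g x) • x + (g y - s x (y - x)) • y = 0 := by
      have h3 : f 0 + g y • y - (f 0 + g x • x) - s x (y - x) • (y - x) = 0 := by rw [h1, sub_self]
      rw [← h3]
      simp only [sub_smul, smul_sub]
      abel
    obtain ⟨h4, h5⟩ := hxy _ _ h2
    linarith
  have he01 : g e₀ = g e₁ := hind e₀ e₁ he
  refine ⟨g e₀, fun x => ?_⟩
  rcases eq_or_ne x 0 with rfl | hx
  · simp
  rw [hgx x]
  congr 2
  by_cases hx0 : ∀ α β : ℝ, α • x + β • e₀ = 0 → α = 0 ∧ β = 0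
  · exact hind x e₀ hx0
  rw [he01]
  apply hind
  intro α β hαβ
  push Not at hx0
  obtain ⟨α', β', h1, h2⟩ := hx0
  have hα' : α' ≠ 0 := by
    intro h3
    have h4 := h2 h3
    rw [h3, zero_smul, zero_add] at h1
    exact h4 ((he β' 0 (by rw [h1, zero_smul, add_zero])).1)
  have hx' : x = (-(β' / α')) • e₀ := by
    have h5 : α' • (x - (-(β' / α')) • e₀) = 0 := by
      rw [smul_sub, smul_smul]
      have h6 : α' * -(β' / α') = -β' := by field_simp
      rw [h6, neg_smul, sub_neg_eq_add, h1]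
    rcases smul_eq_zero.1 h5 with h6 | h6
    · exact absurd h6 hα'
    · exact sub_eq_zero.1 h6
  set c := -(β' / α') with hc
  have hc0 : c ≠ 0 := by
    intro h7
    apply hx
    rw [hx', h7, zero_smul]
  have h8 := he (α * c) β (by rw [← hαβ, hx', smul_smul])
  exact ⟨(mul_eq_zero.1 h8.1).resolve_right hc0, h8.2⟩

namespace Dat

variable (D : Dat p)

/-- lower bound on the first level -/
lemma lower (c : ℕ →₀ ℝ) (hc : ∀ n, 2 ≤ n → c n = 0) {i : ℕ} (hi : i < 2) :
    D.w 0 * |c i| ^ p ≤ 2 * D.nrm c := by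
  have hM1 : 3 ≤ D.M 1 := by have := D.Mstep 0; rw [zero_add] at this; omega
  have hM0 := D.M0
  have key : ∀ t, D.w 0 * |c i| ^ p / 2 ≤ D.Phi (c - D.Rel t) := by
    intro t
    have h1 := D.E_le c t (k := 0) (κ := 0) le_rfl (by
      intro l hl
      rw [zero_mul]
      refine le_of_eq (Finset.sum_eq_zero fun n hn => ?_)
      have h2 : D.M 1 ≤ n := (D.M_mono hl).trans (Finset.mem_Ico.1 hn).1
      rw [hc n (by omega), ap_zero, mul_zero])
    rw [zero_mul, add_zero, D.E_split] at h1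
    have h3 := D.Psi_nonneg (D.M 0) (fun n => c n - D.Rel (tl t 0) n)
    have hW : ∀ n, n < 3 → D.W n = D.w 0 := fun n hn =>
      D.W_eq (by rw [hM0]; exact Nat.zero_le _) (by rw [zero_add]; omega)
    have h4 : D.W i * |c i + t 0| ^ p + D.W 2 * |c 2 + t 0| ^ p ≤
        ∑ n ∈ Finset.Ico (D.M 0) (D.M (0 + 1)), D.W n * |c n + t 0| ^ p := by
      rw [← Finset.sum_pair (f := fun n => D.W n * |c n + t 0| ^ p) (by omega : i ≠ 2)]
      refine Finset.sum_le_sum_of_subset_of_nonneg ?_ fun n _ _ => D.term_nonneg n _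
      intro n hn
      rw [Finset.mem_insert, Finset.mem_singleton] at hn
      rw [Finset.mem_Ico, hM0, zero_add]
      omega
    rw [hW i (by omega), hW 2 (by omega), hc 2 le_rfl, zero_add, ← mul_add] at h4
    have h5 : |c i| ^ p ≤ |c i + t 0| ^ p + |t 0| ^ p := by
      have := ap_add (p := p) (c i + t 0) (-t 0)
      rwa [add_neg_cancel_right, abs_neg] at this
    have h6 := mul_le_mul_of_nonneg_left h5 (D.w_pos 0).le
    linarith
  have := le_ciInf key
  unfold nrm
  linarith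

lemma indep (α β : ℝ) (h : α • D.io (Finsupp.single 0 1) + β • D.io (Finsupp.single 1 1) = 0) :
    α = 0 ∧ β = 0 := by
  classical
  rw [← io_smul, ← io_smul, ← io_add] at h
  set c : ℕ →₀ ℝ := α • Finsupp.single 0 1 + β • Finsupp.single 1 1 with hc
  have h0 : D.nrm c = 0 := by rw [← norm_io, h, norm_zero]
  have hp0 := hp.pos
  have hcn : ∀ n, 2 ≤ n → c n = 0 := by
    intro n hn
    rw [hc, Finsupp.add_apply, Finsupp.smul_apply, Finsupp.smul_apply,
      Finsupp.single_apply, Finsupp.single_apply, if_neg (by omega), if_neg (by omega)]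
    simp
  have hci : ∀ i < 2, c i = 0 := by
    intro i hi
    have h1 := D.lower c hcn hi
    rw [h0, mul_zero] at h1
    by_contra hne
    have h2 : 0 < D.w 0 * |c i| ^ p :=
      mul_pos (D.w_pos 0) (Real.rpow_pos_of_pos (abs_pos.2 hne) _)
    linarith
  have hc0 := hci 0 (by norm_num)
  have hc1 := hci 1 (by norm_num)
  rw [hc] at hc0 hc1
  simp at hc0 hc1
  exact ⟨hc0, hc1⟩

/-- rational vectors are dense -/
lemma rat_dense (c : ℕ →₀ ℝ) : ∀ ε : ℝ, 0 < ε →
    ∃ d : ℕ →₀ ℚ, ∀ e : ℕ →₀ ℝ, (∀ n, e n = ((d n : ℚ) : ℝ)) → D.Phi (c - e) ≤ ε := by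
  classical
  refine Finsupp.induction_linear (motive := fun c => ∀ ε : ℝ, 0 < ε →
    ∃ d : ℕ →₀ ℚ, ∀ e : ℕ →₀ ℝ, (∀ n, e n = ((d n : ℚ) : ℝ)) → D.Phi (c - e) ≤ ε) c ?_ ?_ ?_
  · intro ε hε
    refine ⟨0, fun e he => ?_⟩
    have : e = 0 := by ext n; rw [he n]; simp
    rw [this, sub_zero, D.Phi_zero]
    exact hε.le
  · intro f g hf hg ε hε
    obtain ⟨d, hd⟩ := hf (ε / 2) (half_pos hε)
    obtain ⟨d', hd'⟩ := hg (ε / 2) (half_pos hε)
    refine ⟨d + d', fun e he => ?_⟩
    set e₁ : ℕ →₀ ℝ := d.mapRange (fun x : ℚ => (x : ℝ)) (by simp) with he₁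
    have h1 : f + g - e = (f - e₁) + (g - (e - e₁)) := by abel
    rw [h1]
    refine (D.Phi_add _ _).trans ?_
    have h2 := hd e₁ (fun n => by simp [he₁])
    have h3 := hd' (e - e₁) (fun n => by
      rw [Finsupp.sub_apply, he n]
      simp [he₁])
    linarith
  · intro n a ε hε
    have hW := D.W_pos n
    have hcont : Tendsto (fun x : ℝ => D.W n * |a - x| ^ p) (𝓝 a) (𝓝 (D.W n * |a - a| ^ p)) :=
      ((tendsto_const_nhds.sub tendsto_id).abs.rpow_const (Or.inr hp.pos.le)).const_mul _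
    rw [sub_self, ap_zero, mul_zero] at hcont
    obtain ⟨δ, hδ, hδ'⟩ := Metric.eventually_nhds_iff.1 (hcont.eventually (gt_mem_nhds hε))
    obtain ⟨q, hq1, hq2⟩ := exists_rat_btwn (show a < a + δ by linarith)
    refine ⟨Finsupp.single n q, fun e he => ?_⟩
    have h1 : Finsupp.single n a - e = Finsupp.single n (a - q) := by
      ext m
      rw [Finsupp.sub_apply, he m, Finsupp.single_apply, Finsupp.single_apply,
        Finsupp.single_apply]
      split_ifs <;> simp
    rw [h1, D.Phi_eq (s := {n}) Finsupp.support_single_subset, Finset.sum_singleton,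
      Finsupp.single_eq_same]
    refine (hδ' ?_).le
    rw [Real.dist_eq, abs_lt]
    constructor <;> linarith

lemma single_sum (k : ℕ) : D.io (D.xi k) =
    ∑ j ∈ Finset.range (D.N k), D.io (Finsupp.single (D.M k + j) 1) := by
  have h1 : D.io (D.rr k) = 0 := by
    have := D.io_Rel (Finsupp.single k 1)
    rwa [Rel_single, one_smul] at this
  rw [rr, io_sub, sub_eq_zero, io_sum, Finset.sum_Ico_eq_sum_range] at h1
  exact h1

/-- **Increments in rational directions.** -/
lemma incr_rat (f : D.XX → D.XX) {C : ℝ} (hC : 0 < C) (hf : ∀ x y, ‖f x - f y‖ ≤ C * ‖x - y‖)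
    (a : D.XX) (d : ℕ →₀ ℚ) (e : ℕ →₀ ℝ) (he : ∀ n, e n = ((d n : ℚ) : ℝ)) :
    ∃ s : ℝ, f (a + D.io e) - f a = s • D.io e := by
  refine mult_closed (p := p) _ _ fun ε hε => D.rigid hC ?_ hε
  intro K
  obtain ⟨k, hk, hk'⟩ := D.dens d K
  have hxe : D.xi k = e := by ext n; rw [hk' n, he n]
  refine ⟨k, hk, hxe, ?_⟩
  set σ : ℕ → D.XX := fun j => ∑ i ∈ Finset.range j, D.io (Finsupp.single (D.M k + i) 1) with hσ
  have hσ0 : σ 0 = 0 := by simp [hσ]
  refine ⟨fun j => if j < D.N k then f (a + σ (j + 1)) - f (a + σ j) else 0, ?_, ?_⟩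
  · rw [Finset.sum_congr rfl fun j hj => if_pos (Finset.mem_range.1 hj),
      Finset.sum_range_sub (fun j => f (a + σ j)), hσ0, add_zero]
    have hσN : σ (D.N k) = D.io e := by rw [← hxe, D.single_sum k]
    rw [hσN]
  · intro j
    show ‖(if j < D.N k then f (a + σ (j + 1)) - f (a + σ j) else 0 : D.XX)‖ ≤ C * D.w k
    by_cases hj : j < D.N k
    · rw [if_pos hj]
      refine (hf _ _).trans (mul_le_mul_of_nonneg_left ?_ hC.le)
      have h1 : a + σ (j + 1) - (a + σ j) = D.io (Finsupp.single (D.M k + j) 1) := by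
        rw [hσ]
        simp only [Finset.sum_range_succ]
        abel
      rw [h1, norm_io]
      refine (D.nrm_single_le _).trans (D.W_eq (Nat.le_add_right _ _) ?_).le
      unfold N at hj
      omega
    · rw [if_neg hj, norm_zero]
      exact mul_nonneg hC.le (D.w_pos k).le

/-- **Increments in all directions.** -/
lemma incr (f : D.XX → D.XX) {C : ℝ} (hC : 0 < C) (hf : ∀ x y, ‖f x - f y‖ ≤ C * ‖x - y‖)
    (a x : D.XX) : ∃ s : ℝ, f (a + x) - f a = s • x := by
  refine mult_closed (p := p) _ _ fun ε hε => ?_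
  have hδ : 0 < ε / (4 * C) := by positivity
  obtain ⟨c, hc⟩ := D.exists_io x hδ
  obtain ⟨d, hd⟩ := D.rat_dense c (ε / (4 * C)) hδ
  set e : ℕ →₀ ℝ := d.mapRange (fun x : ℚ => (x : ℝ)) (by simp) with he
  have hed : ∀ n, e n = ((d n : ℚ) : ℝ) := fun n => by simp [he]
  have h1 : ‖x - D.io e‖ ≤ ε / (2 * C) := by
    have h2 : x - D.io e = (x - D.io c) + D.io (c - e) := by rw [io_sub]; abel
    rw [h2]
    refine (norm_add_le _ _).trans ?_
    have h3 : ‖D.io (c - e)‖ ≤ ε / (4 * C) := by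
      rw [norm_io]
      exact (D.nrm_le_Phi _).trans (hd e hed)
    have h4 : ε / (2 * C) = ε / (4 * C) + ε / (4 * C) := by field_simp; ring
    rw [h4]
    exact add_le_add hc.le h3
  obtain ⟨s, hs, hsC⟩ : ∃ s : ℝ, f (a + D.io e) - f a = s • D.io e ∧ |s| ^ p ≤ C := by
    obtain ⟨s, hs⟩ := D.incr_rat f hC hf a d e hed
    rcases eq_or_ne (D.io e) 0 with h0 | h0
    · refine ⟨0, ?_, ?_⟩
      · rw [hs, h0, smul_zero, smul_zero]
      · rw [ap_zero]; exact hC.le
    · refine ⟨s, hs, ?_⟩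
      have h5 := hf (a + D.io e) a
      rw [hs, PNormed.norm_smul_p (p := p), add_sub_cancel_left] at h5
      exact le_of_mul_le_mul_right h5 (norm_pos_iff.2 h0)
  refine ⟨s, ?_⟩
  have h6 : f (a + x) - f a - s • x = (f (a + x) - f (a + D.io e)) + s • (D.io e - x) := by
    rw [smul_sub, ← hs]; abel
  rw [h6]
  refine (norm_add_le _ _).trans ?_
  have h7 := hf (a + x) (a + D.io e)
  rw [add_sub_add_left_eq_sub] at h7
  have h8 : ‖s • (D.io e - x)‖ ≤ C * ‖x - D.io e‖ := by
    rw [PNormed.norm_smul_p (p := p), norm_sub_rev]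
    exact mul_le_mul_of_nonneg_right hsC (norm_nonneg _)
  have h9 : C * ‖x - D.io e‖ ≤ ε / 2 := by
    calc C * ‖x - D.io e‖ ≤ C * (ε / (2 * C)) := mul_le_mul_of_nonneg_left h1 hC.le
      _ = ε / 2 := by field_simp
  linarith

/-- **Every Lipschitz self-map of the space is affine, with a scalar linear part.** -/
theorem lipschitz_affine (f : D.XX → D.XX) (C : ℝ) (hf : ∀ x y, ‖f x - f y‖ ≤ C * ‖x - y‖) :
    ∃ l : ℝ, ∀ x, f x = f 0 + l • x := by
  refine homothety _ _ D.indep f (D.incr f (C := max C 1) (by positivity) fun x y => ?_)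
  exact (hf x y).trans (mul_le_mul_of_nonneg_right (le_max_left _ _) (norm_nonneg _))

end Dat

end Pool.Agent.K7.H82.PB
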