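import Pool.Agent.K7.H82.PB.Defs
import Pool.Agent.K7.H82.PB.Data

/-!
# The seminorm and the main estimate
-/

set_option autoImplicit false
open Filter Topology

namespace Pool.Agent.K7.H82.PB

/-- exponents strictly between `0` and `1` -/
class Pex (p : ℝ) : Prop where
  pos : 0 < p
  lt : p < 1

variable {p : ℝ} [hp : Pex p]

instance : Fact (0 < p) := ⟨hp.pos⟩

include hp in
lemma ap_add (a b : ℝ) : |a + b| ^ p ≤ |a| ^ p + |b| ^ p := by
  have h1 : |a + b| ^ p ≤ (|a| + |b|) ^ p :=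
    Real.rpow_le_rpow (abs_nonneg _) (abs_add_le _ _) hp.pos.le
  have h2 := NNReal.rpow_add_le_add_rpow ⟨|a|, abs_nonneg a⟩ ⟨|b|, abs_nonneg b⟩
    hp.pos.le hp.lt.le
  have h3 : (|a| + |b|) ^ p ≤ |a| ^ p + |b| ^ p := by exact_mod_cast h2
  exact h1.trans h3

omit hp in
lemma ap_nonneg (a : ℝ) : 0 ≤ |a| ^ p := Real.rpow_nonneg (abs_nonneg _) _

include hp in
lemma ap_zero : |(0 : ℝ)| ^ p = 0 := by rw [abs_zero, Real.zero_rpow hp.pos.ne']

include hp in
lemma ap_sum {ι : Type*} (s : Finset ι) (f : ι → ℝ) : |∑ i ∈ s, f i| ^ p ≤ ∑ i ∈ s, |f i| ^ p := by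
  classical
  induction s using Finset.induction_on with
  | empty => rw [Finset.sum_empty, Finset.sum_empty]; exact (ap_zero).le
  | insert a s ha ih =>
    rw [Finset.sum_insert ha, Finset.sum_insert ha]
    exact (ap_add _ _).trans (by linarith)

namespace Dat

variable (D : Dat p)

omit hp in
lemma M_mono : Monotone D.M :=
  monotone_nat_of_le_succ fun k => by have := D.Mstep k; omega

omit hp in
lemma M_ge (k : ℕ) : k ≤ D.M k := by
  induction k with
  | zero => exact Nat.zero_le _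
  | succ k ih => have := D.Mstep k; omega

omit hp in
lemma exists_block (n : ℕ) : ∃ k, D.M k ≤ n ∧ n < D.M (k + 1) := by
  have : ∀ K, n < D.M K → ∃ k, D.M k ≤ n ∧ n < D.M (k + 1) := by
    intro K
    induction K with
    | zero => intro h; rw [D.M0] at h; omega
    | succ K ih =>
      intro h
      by_cases h' : n < D.M K
      · exact ih h'
      · exact ⟨K, not_lt.1 h', h⟩
  exact this (n + 1) (lt_of_lt_of_le (Nat.lt_succ_self n) (D.M_ge _))

/-- the number of generators of a level -/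
def N (k : ℕ) : ℕ := D.M (k + 1) - D.M k

omit hp in
lemma N_cast (k : ℕ) : (D.N k : ℝ) = (D.M (k + 1) : ℝ) - D.M k := by
  rw [N, Nat.cast_sub (D.M_mono (Nat.le_succ k))]

omit hp in
lemma N_ge (k : ℕ) : 3 ≤ D.N k := by have := D.Mstep k; unfold N; omega

omit hp in
lemma N_pos (k : ℕ) : (0 : ℝ) < D.N k := by
  have := D.N_ge k
  exact_mod_cast (by omega : 0 < D.N k)

/-- the weight of the generators of a level -/
noncomputable def w (k : ℕ) : ℝ := D.R k / D.N k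

omit hp in
lemma w_pos (k : ℕ) : 0 < D.w k := div_pos (D.Rpos k) (D.N_pos k)

omit hp in
lemma N_w (k : ℕ) : (D.N k : ℝ) * D.w k = D.R k := by
  unfold w
  field_simp [(D.N_pos k).ne']

omit hp in
lemma W_eq {k n : ℕ} (h : D.M k ≤ n) (h' : n < D.M (k + 1)) : D.W n = D.w k := by
  rw [D.Wdef k n h h', w, N_cast]

omit hp in
lemma W_pos (n : ℕ) : 0 < D.W n := by
  obtain ⟨k, h, h'⟩ := D.exists_block n
  rw [D.W_eq h h']
  exact D.w_pos k

/-- the weighted `ℓ_p`-norm (its `p`-th power) -/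
noncomputable def Phi (c : ℕ →₀ ℝ) : ℝ := ∑ n ∈ c.support, D.W n * |c n| ^ p

lemma Phi_eq {c : ℕ →₀ ℝ} {s : Finset ℕ} (h : c.support ⊆ s) :
    D.Phi c = ∑ n ∈ s, D.W n * |c n| ^ p := by
  refine Finset.sum_subset h fun n _ hn => ?_
  rw [Finsupp.notMem_support_iff.1 hn, ap_zero, mul_zero]

omit hp in
lemma term_nonneg (n : ℕ) (a : ℝ) : 0 ≤ D.W n * |a| ^ p := mul_nonneg (D.W_pos n).le (ap_nonneg a)

omit hp in
lemma Phi_nonneg (c : ℕ →₀ ℝ) : 0 ≤ D.Phi c := Finset.sum_nonneg fun n _ => D.term_nonneg n _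

omit hp in
lemma Phi_zero : D.Phi 0 = 0 := by simp [Phi]

lemma Phi_add (c d : ℕ →₀ ℝ) : D.Phi (c + d) ≤ D.Phi c + D.Phi d := by
  classical
  rw [D.Phi_eq (c := c + d) (s := c.support ∪ d.support) Finsupp.support_add,
    D.Phi_eq (c := c) (s := c.support ∪ d.support) Finset.subset_union_left,
    D.Phi_eq (c := d) (s := c.support ∪ d.support) Finset.subset_union_right,
    ← Finset.sum_add_distrib]
  refine Finset.sum_le_sum fun n _ => ?_
  rw [← mul_add]
  exact mul_le_mul_of_nonneg_left (ap_add _ _) (D.W_pos n).le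

lemma Phi_sum {ι : Type*} (s : Finset ι) (f : ι → (ℕ →₀ ℝ)) :
    D.Phi (∑ i ∈ s, f i) ≤ ∑ i ∈ s, D.Phi (f i) := by
  classical
  induction s using Finset.induction_on with
  | empty => simp [Phi_zero]
  | insert a s ha ih =>
    rw [Finset.sum_insert ha, Finset.sum_insert ha]
    exact (D.Phi_add _ _).trans (by linarith)

lemma Phi_smul (t : ℝ) (c : ℕ →₀ ℝ) : D.Phi (t • c) = |t| ^ p * D.Phi c := by
  rw [D.Phi_eq (c := t • c) (s := c.support) Finsupp.support_smul, Phi, Finset.mul_sum]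
  refine Finset.sum_congr rfl fun n _ => ?_
  rw [Finsupp.smul_apply, smul_eq_mul, abs_mul, Real.mul_rpow (abs_nonneg _) (abs_nonneg _)]
  ring

lemma Psi_le_Phi (m : ℕ) (c : ℕ →₀ ℝ) : Psi p D.W m c ≤ D.Phi c := by
  classical
  rw [D.Phi_eq (c := c) (s := c.support ∪ Finset.range m) Finset.subset_union_left]
  exact Finset.sum_le_sum_of_subset_of_nonneg Finset.subset_union_right
    fun n _ _ => D.term_nonneg n _

lemma Phi_eq_Psi {m : ℕ} {c : ℕ →₀ ℝ} (h : ∀ n, m ≤ n → c n = 0) :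
    D.Phi c = Psi p D.W m c := by
  refine D.Phi_eq fun n hn => ?_
  rw [Finset.mem_range]
  by_contra h'
  exact (Finsupp.mem_support_iff.1 hn) (h n (not_lt.1 h'))

omit hp in
lemma Psi_nonneg (m : ℕ) (c : ℕ → ℝ) : 0 ≤ Psi p D.W m c :=
  Finset.sum_nonneg fun n _ => D.term_nonneg n _

/-- the relations -/
noncomputable def rr (k : ℕ) : ℕ →₀ ℝ :=
  D.xi k - ∑ n ∈ Finset.Ico (D.M k) (D.M (k + 1)), Finsupp.single n 1

omit hp in
lemma rr_apply (k n : ℕ) :
    D.rr k n = D.xi k n - if D.M k ≤ n ∧ n < D.M (k + 1) then 1 else 0 := by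
  classical
  rw [rr, Finsupp.sub_apply, Finsupp.finsetSum_apply]
  congr 1
  simp only [Finsupp.single_apply]
  rw [Finset.sum_ite_eq']
  simp only [Finset.mem_Ico]

/-- combinations of the relations -/
noncomputable def Rel : (ℕ →₀ ℝ) →ₗ[ℝ] (ℕ →₀ ℝ) := Finsupp.linearCombination ℝ D.rr

omit hp in
lemma Rel_single (k : ℕ) (a : ℝ) : D.Rel (Finsupp.single k a) = a • D.rr k := by
  rw [Rel, Finsupp.linearCombination_single]

/-- the restriction to the indices at most `l` -/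
noncomputable def tl (t : ℕ →₀ ℝ) (l : ℕ) : ℕ →₀ ℝ := t.filter (· ≤ l)

omit hp in
lemma tl_succ (t : ℕ →₀ ℝ) (m : ℕ) : tl t (m + 1) = tl t m + Finsupp.single (m + 1) (t (m + 1)) := by
  classical
  ext n
  simp only [tl, Finsupp.add_apply, Finsupp.filter_apply, Finsupp.single_apply]
  rcases lt_trichotomy n (m + 1) with h | h | h
  · simp [h.le, Nat.lt_succ_iff.1 h, h.ne']
  · subst h; simp
  · have h1 : ¬ n ≤ m + 1 := by omega
    have h2 : ¬ n ≤ m := by omega
    have h3 : ¬ m + 1 = n := by omega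
    simp [h1, h2, h3]

omit hp in
lemma tl_zero (t : ℕ →₀ ℝ) : tl t 0 = Finsupp.single 0 (t 0) := by
  classical
  ext n
  simp only [tl, Finsupp.filter_apply, Finsupp.single_apply]
  rcases Nat.eq_zero_or_pos n with h | h
  · subst h; simp
  · have h1 : ¬ n ≤ 0 := by omega
    have h2 : ¬ 0 = n := by omega
    simp [h2]
    intro h3; omega

omit hp in
/-- relations of the lower levels do not use the generators of a level -/
lemma Rel_tl_high (t : ℕ →₀ ℝ) (l n : ℕ) (h : D.M (l + 1) ≤ n) : D.Rel (tl t l) n = 0 := by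
  induction l with
  | zero =>
    rw [tl_zero, Rel_single, Finsupp.smul_apply, rr_apply, D.supp 0 n (by rw [D.M0]; omega),
      if_neg (by omega)]
    simp
  | succ l ih =>
    have h1 : D.M (l + 1) ≤ D.M (l + 1 + 1) := D.M_mono (Nat.le_succ _)
    rw [tl_succ, map_add, Finsupp.add_apply, ih (h1.trans h), Rel_single, Finsupp.smul_apply,
      rr_apply, D.supp (l + 1) n (h1.trans h), if_neg (by omega)]
    simp

omit hp in
lemma Rel_tl_block (t : ℕ →₀ ℝ) (l n : ℕ) (h : D.M l ≤ n) (h' : n < D.M (l + 1)) :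
    D.Rel (tl t l) n = - t l := by
  cases l with
  | zero =>
    rw [tl_zero, Rel_single, Finsupp.smul_apply, rr_apply, D.supp 0 n h, if_pos ⟨h, h'⟩]
    simp
  | succ l =>
    rw [tl_succ, map_add, Finsupp.add_apply, D.Rel_tl_high t l n h, Rel_single,
      Finsupp.smul_apply, rr_apply, D.supp (l + 1) n h, if_pos ⟨h, h'⟩]
    simp

/-- the truncated error -/
noncomputable def E (c t : ℕ →₀ ℝ) (l : ℕ) : ℝ :=
  Psi p D.W (D.M (l + 1)) (fun n => c n - D.Rel (tl t l) n)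

/-- the mass of a level -/
noncomputable def A (c : ℕ →₀ ℝ) (l : ℕ) : ℝ :=
  ∑ n ∈ Finset.Ico (D.M l) (D.M (l + 1)), D.W n * |c n| ^ p

omit hp in
lemma E_nonneg (c t : ℕ →₀ ℝ) (l : ℕ) : 0 ≤ D.E c t l := D.Psi_nonneg _ _

omit hp in
lemma A_nonneg (c : ℕ →₀ ℝ) (l : ℕ) : 0 ≤ D.A c l := Finset.sum_nonneg fun n _ => D.term_nonneg n _

omit hp in
/-- splitting off a level -/
lemma E_split (c t : ℕ →₀ ℝ) (l : ℕ) :
    D.E c t l = Psi p D.W (D.M l) (fun n => c n - D.Rel (tl t l) n) +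
      ∑ n ∈ Finset.Ico (D.M l) (D.M (l + 1)), D.W n * |c n + t l| ^ p := by
  rw [E, Psi, ← Finset.sum_range_add_sum_Ico _ (D.M_mono (Nat.le_succ l))]
  congr 1
  refine Finset.sum_congr rfl fun n hn => ?_
  rw [Finset.mem_Ico] at hn
  rw [D.Rel_tl_block t l n hn.1 hn.2, sub_neg_eq_add]

/-- the coefficient of a relation is controlled by its level -/
lemma t_bound (c t : ℕ →₀ ℝ) (l : ℕ) : D.R l * |t l| ^ p ≤
    ∑ n ∈ Finset.Ico (D.M l) (D.M (l + 1)), D.W n * |c n + t l| ^ p + D.A c l := by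
  have h1 : D.R l * |t l| ^ p = ∑ n ∈ Finset.Ico (D.M l) (D.M (l + 1)), D.W n * |t l| ^ p := by
    rw [← Finset.sum_mul]
    congr 1
    rw [Finset.sum_congr rfl fun n hn => D.W_eq (Finset.mem_Ico.1 hn).1 (Finset.mem_Ico.1 hn).2]
    rw [Finset.sum_const, Nat.card_Ico, nsmul_eq_mul, ← D.N_w l]
    rfl
  rw [h1, A, ← Finset.sum_add_distrib]
  refine Finset.sum_le_sum fun n _ => ?_
  rw [← mul_add]
  refine mul_le_mul_of_nonneg_left ?_ (D.W_pos n).le
  have h := ap_add (p := p) (c n + t l) (-c n)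
  rw [abs_neg] at h
  have h2 : c n + t l + -c n = t l := by ring
  rwa [h2] at h

lemma E_rec (c t : ℕ →₀ ℝ) (m : ℕ) :
    D.E c t m + ∑ n ∈ Finset.Ico (D.M (m + 1)) (D.M (m + 1 + 1)), D.W n * |c n + t (m + 1)| ^ p ≤
      D.E c t (m + 1) + |t (m + 1)| ^ p * Psi p D.W (D.M (m + 1)) (D.xi (m + 1)) := by
  rw [D.E_split c t (m + 1)]
  have h : D.E c t m ≤ Psi p D.W (D.M (m + 1)) (fun n => c n - D.Rel (tl t (m + 1)) n) +
      |t (m + 1)| ^ p * Psi p D.W (D.M (m + 1)) (D.xi (m + 1)) := by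
    rw [E, Psi, Psi, Psi, Finset.mul_sum, ← Finset.sum_add_distrib]
    refine Finset.sum_le_sum fun n hn => ?_
    have hn' := Finset.mem_range.1 hn
    have h1 : c n - D.Rel (tl t m) n = (c n - D.Rel (tl t (m + 1)) n) +
        t (m + 1) * D.xi (m + 1) n := by
      rw [tl_succ, map_add, Finsupp.add_apply, Rel_single, Finsupp.smul_apply, rr_apply,
        if_neg (by omega), smul_eq_mul]
      ring
    have h2 : |t (m + 1)| ^ p * (D.W n * |D.xi (m + 1) n| ^ p) =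
        D.W n * |t (m + 1) * D.xi (m + 1) n| ^ p := by
      rw [abs_mul, Real.mul_rpow (abs_nonneg _) (abs_nonneg _)]
      ring
    rw [h2, ← mul_add, h1]
    exact mul_le_mul_of_nonneg_left (ap_add _ _) (D.W_pos n).le
  linarith

lemma E_step (c t : ℕ →₀ ℝ) {k m : ℕ} (hkm : k ≤ m) {κ : ℝ} (hκ : 0 ≤ κ)
    (hA : D.A c (m + 1) ≤ κ * D.R k) :
    D.E c t m ≤ D.E c t (m + 1) + (1 / 4) ^ (m + 1) * D.E c t (m + 1) +
      κ * (1 / 4) ^ (m + 1) := by
  set B := ∑ n ∈ Finset.Ico (D.M (m + 1)) (D.M (m + 1 + 1)), D.W n * |c n + t (m + 1)| ^ p with hB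
  set P := Psi p D.W (D.M (m + 1)) (D.xi (m + 1)) with hP
  have h1 := D.E_rec c t m
  have h2 := D.t_bound c t (m + 1)
  have hB0 : 0 ≤ B := Finset.sum_nonneg fun n _ => D.term_nonneg n _
  have hP0 : 0 ≤ P := D.Psi_nonneg _ _
  have hBE : B ≤ D.E c t (m + 1) := by
    rw [D.E_split c t (m + 1)]
    linarith [D.Psi_nonneg (D.M (m + 1)) (fun n => c n - D.Rel (tl t (m + 1)) n)]
  have h3 := D.big0 (m + 1)
  have h4 := D.big k (m + 1) (Nat.lt_succ_of_le hkm)
  have hR := D.Rpos (m + 1)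
  rw [← hB] at h1 h2
  rw [← hP] at h1 h3 h4
  have h5 : |t (m + 1)| ^ p * P ≤ (1 / 4) ^ (m + 1) * D.E c t (m + 1) + κ * (1 / 4) ^ (m + 1) := by
    have h6 : D.R (m + 1) * (|t (m + 1)| ^ p * P) ≤
        D.R (m + 1) * ((1 / 4) ^ (m + 1) * D.E c t (m + 1) + κ * (1 / 4) ^ (m + 1)) := by
      calc D.R (m + 1) * (|t (m + 1)| ^ p * P) = (D.R (m + 1) * |t (m + 1)| ^ p) * P := by ring
        _ ≤ (D.E c t (m + 1) + κ * D.R k) * P := by
            refine mul_le_mul_of_nonneg_right ?_ hP0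
            linarith
        _ = D.E c t (m + 1) * P + κ * (D.R k * P) := by ring
        _ ≤ D.E c t (m + 1) * ((1 / 4) ^ (m + 1) * D.R (m + 1)) +
            κ * ((1 / 4) ^ (m + 1) * D.R (m + 1)) := by
            refine add_le_add ?_ ?_
            · exact mul_le_mul_of_nonneg_left h3 (D.E_nonneg c t _)
            · exact mul_le_mul_of_nonneg_left h4 hκ
        _ = D.R (m + 1) * ((1 / 4) ^ (m + 1) * D.E c t (m + 1) + κ * (1 / 4) ^ (m + 1)) := by
            ring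
    exact le_of_mul_le_mul_left h6 hR
  linarith

lemma E_desc (c t : ℕ →₀ ℝ) {k : ℕ} {κ : ℝ} (hκ : 0 ≤ κ)
    (hA : ∀ l, k < l → D.A c l ≤ κ * D.R k) (L : ℕ) (hL : k ≤ L) :
    D.E c t k ≤ (2 - (1 / 2) ^ L) * (D.E c t L + κ * ((1 / 2) ^ k - (1 / 2) ^ L)) := by
  induction L, hL using Nat.le_induction with
  | base =>
    rw [sub_self, mul_zero, add_zero]
    have h1 : ((1 : ℝ) / 2) ^ k ≤ 1 := pow_le_one₀ (by norm_num) (by norm_num)
    nlinarith [D.E_nonneg c t k]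
  | succ L hL ih =>
    refine ih.trans ?_
    have h1 := D.E_step c t hL hκ (hA (L + 1) (Nat.lt_succ_of_le hL))
    set e := D.E c t (L + 1) with he
    have he0 : 0 ≤ e := D.E_nonneg c t _
    set x : ℝ := (1 / 2) ^ (L + 1) with hx
    have hx0 : 0 < x := by positivity
    have hx1 : x ≤ 1 / 2 := by
      rw [hx, pow_succ]
      have : ((1 : ℝ) / 2) ^ L ≤ 1 := pow_le_one₀ (by norm_num) (by norm_num)
      linarith
    have hx4 : ((1 : ℝ) / 4) ^ (L + 1) = x ^ 2 := by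
      rw [hx, ← pow_mul, mul_comm, pow_mul]
      norm_num
    have hx2 : ((1 : ℝ) / 2) ^ L = 2 * x := by rw [hx, pow_succ]; ring
    have hk : x ≤ (1 / 2) ^ k := by
      rw [hx]
      exact pow_le_pow_of_le_one (by norm_num) (by norm_num) (by omega)
    set y : ℝ := (1 / 2) ^ k with hy
    rw [hx4] at h1
    rw [hx2]
    have h2 : D.E c t L + κ * (y - 2 * x) ≤ (1 + x ^ 2) * (e + κ * (y - x)) := by
      have h3 : κ * x ^ 2 ≤ κ * x := mul_le_mul_of_nonneg_left (by nlinarith) hκ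
      have h4 : 0 ≤ x ^ 2 * (κ * (y - x)) := by
        have : 0 ≤ κ * (y - x) := mul_nonneg hκ (by linarith)
        positivity
      nlinarith
    have h5 : 0 ≤ e + κ * (y - x) := add_nonneg he0 (mul_nonneg hκ (by linarith))
    calc (2 - 2 * x) * (D.E c t L + κ * (y - 2 * x))
        ≤ (2 - 2 * x) * ((1 + x ^ 2) * (e + κ * (y - x))) :=
          mul_le_mul_of_nonneg_left h2 (by linarith)
      _ = ((2 - 2 * x) * (1 + x ^ 2)) * (e + κ * (y - x)) := by ring
      _ ≤ (2 - x) * (e + κ * (y - x)) := by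
          refine mul_le_mul_of_nonneg_right ?_ h5
          nlinarith [mul_pos hx0 hx0, mul_pos (mul_pos hx0 hx0) hx0]

/-- the main estimate -/
lemma E_le (c t : ℕ →₀ ℝ) {k : ℕ} {κ : ℝ} (hκ : 0 ≤ κ)
    (hA : ∀ l, k < l → D.A c l ≤ κ * D.R k) :
    D.E c t k ≤ 2 * (D.Phi (c - D.Rel t) + κ * (1 / 2) ^ k) := by
  obtain ⟨B, hB⟩ : ∃ B, ∀ n ∈ t.support, n ≤ B :=
    ⟨t.support.sup id, fun n hn => Finset.le_sup (f := id) hn⟩
  have h1 := D.E_desc c t hκ hA (max k B) (le_max_left _ _)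
  have h2 : tl t (max k B) = t := by
    rw [tl, Finsupp.filter_eq_self_iff]
    intro n hn
    exact (hB n (Finsupp.mem_support_iff.2 hn)).trans (le_max_right _ _)
  have h3 : D.E c t (max k B) ≤ D.Phi (c - D.Rel t) := by
    rw [E, h2]
    exact D.Psi_le_Phi _ (c - D.Rel t)
  have h4 : (0 : ℝ) < (1 / 2) ^ (max k B) := by positivity
  have h5 : ((1 : ℝ) / 2) ^ (max k B) ≤ (1 / 2) ^ k :=
    pow_le_pow_of_le_one (by norm_num) (by norm_num) (le_max_left _ _)
  have h6 : 0 ≤ κ * ((1 / 2) ^ k - (1 / 2) ^ (max k B)) := mul_nonneg hκ (by linarith)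
  have h7 : κ * ((1 / 2) ^ k - (1 / 2) ^ (max k B)) ≤ κ * (1 / 2) ^ k :=
    mul_le_mul_of_nonneg_left (by linarith) hκ
  have h8 := D.E_nonneg c t (max k B)
  have h9 := D.Phi_nonneg (c - D.Rel t)
  nlinarith

end Dat

end Pool.Agent.K7.H82.PB
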